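import Pool.Agent.Helper38.NS.Sg
import Pool.Agent.Helper31.EC.Uns

/-! Exact entropy calculus: rounding of functions, digits of real functions, small functions. -/

set_option autoImplicit false

namespace Pool.Agent.Helper96.FLT

open Finset Filter Topology Pool.Agent.Helper31.EC QS Sp

noncomputable section

variable {S : Sp}

/-- rounding of a tame function -/
def rdt (f : TR S) (r : ℝ) (h0 : 0 ≤ r) : TR S :=
  ⟨fun k ω => S.dl r k * ⌊TR.ev f k ω / S.dl r k⌋, by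
    obtain ⟨K, hK, h⟩ := f.2
    refine ⟨fun k => K k + 1, hK.add (S.Sub_const zero_le_one), ?_⟩
    filter_upwards [h] with k hk ω hω
    have h1 := hk ω hω
    have h2 : |TR.ev f k ω| ≤ K k := h1
    have h3 := S.dl_pos r k
    have h4 : S.dl r k ≤ 1 := by
      have h5 := S.dl_anti h0 k
      rw [S.dl_zero] at h5
      exact h5
    have h5 := Int.floor_le (TR.ev f k ω / S.dl r k)
    have h6 := (Int.lt_floor_add_one (TR.ev f k ω / S.dl r k)).le
    have h7 : S.dl r k * (⌊TR.ev f k ω / S.dl r k⌋ : ℝ) ≤ TR.ev f k ω := by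
      have h8 := mul_le_mul_of_nonneg_left h5 h3.le
      rwa [mul_div_cancel₀ _ h3.ne'] at h8
    have h8 : TR.ev f k ω ≤ S.dl r k * (⌊TR.ev f k ω / S.dl r k⌋ : ℝ) + S.dl r k := by
      have h9 := mul_le_mul_of_nonneg_left h6 h3.le
      rw [mul_div_cancel₀ _ h3.ne', mul_add, mul_one] at h9
      exact h9
    rw [abs_le] at h2 ⊢
    constructor <;> linarith [h2.1, h2.2]⟩

theorem ev_rdt (f : TR S) (r : ℝ) (h0 : 0 ≤ r) (k : ℕ) (ω : (S.F k).Ω) :
    TR.ev (rdt f r h0) k ω = S.dl r k * ⌊TR.ev f k ω / S.dl r k⌋ := rfl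

theorem rdt_close (f : TR S) (r : ℝ) (h0 : 0 ≤ r) (k : ℕ) (ω : (S.F k).Ω) :
    |TR.ev f k ω - TR.ev (rdt f r h0) k ω| ≤ S.dl r k := by
  rw [ev_rdt]
  have h3 := S.dl_pos r k
  have h5 := Int.floor_le (TR.ev f k ω / S.dl r k)
  have h6 := (Int.lt_floor_add_one (TR.ev f k ω / S.dl r k)).le
  have h7 : S.dl r k * (⌊TR.ev f k ω / S.dl r k⌋ : ℝ) ≤ TR.ev f k ω := by
    have h8 := mul_le_mul_of_nonneg_left h5 h3.le
    rwa [mul_div_cancel₀ _ h3.ne'] at h8
  have h8 : TR.ev f k ω ≤ S.dl r k * (⌊TR.ev f k ω / S.dl r k⌋ : ℝ) + S.dl r k := by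
    have h9 := mul_le_mul_of_nonneg_left h6 h3.le
    rw [mul_div_cancel₀ _ h3.ne', mul_add, mul_one] at h9
    exact h9
  rw [abs_le]
  constructor <;> linarith

/-- ROUNDING: a function which carries exactly the digits of level `r` of `f` -/
theorem exists_rd (f : QS S) {r : ℝ} (h0 : 0 ≤ r) (hr : r ≤ 1) :
    ∃ g : QS S, f - g ∈ QS.Id S r ∧ dg g 1 = dg f r := by
  obtain ⟨f, rfl⟩ := mk_surj f
  have hm : mk f - mk (rdt f r h0) ∈ QS.Id S r := by
    rw [← map_sub, mk_mem_Id hr]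
    refine ⟨fun _ _ => True, fun _ => 1, Typ_true, S.Sub_const zero_le_one,
      Eventually.of_forall fun k ω _ _ => ?_⟩
    rw [TR.ev_zero, sub_zero, TR.ev_sub, one_mul]
    exact rdt_close f r h0 k ω
  refine ⟨mk (rdt f r h0), hm, le_antisymm ?_ ?_⟩
  · rw [dg_mk _ le_rfl, dg_mk _ hr]
    have hb := VV.bdd (TR.vec (fun _ : Fin 1 => f)) r
    have h1 : TR.dg f r = cl hb.toInf := io_eq hb
    rw [h1]
    apply TR.dg_le_cl _ _ _ (fun _ _ => True) Typ_true (fun _ => 0) (S.Sub_const le_rfl)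
    refine Eventually.of_forall fun k ω ω' _ _ _ _ _ g => ?_
    have h2 : ⌊TR.ev f k ω / S.dl r k⌋ = ⌊TR.ev f k ω' / S.dl r k⌋ := congrFun g 0
    rw [ev_rdt, ev_rdt, h2, sub_self, abs_zero, zero_mul]
  · rw [dg_eq_of_sub_mem hm le_rfl hr]
    exact dg_mono _ hr

/-- digits of a function which is real over `A` -/
theorem h_dg_of_full {f : QS S} {A : S.L} (h1 : h (dg f 1) A = 1) {r : ℝ} (h0 : 0 ≤ r)
    (hr : r ≤ 1) : h (dg f r) A = r ∧ h (dg f 1) (dg f r ⊔ A) = 1 - r := by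
  have e1 : dg f r ⊔ dg f 1 = dg f 1 := sup_eq_right.mpr (dg_mono f hr)
  have e2 := h_chain (dg f r) (dg f 1) A
  rw [e1, h1] at e2
  have e3 : h (dg f r) A ≤ r := (h_le_H _ _).trans (H_dg_le f h0)
  have e4 : h (dg f 1) (dg f r ⊔ A) ≤ 1 - r := (h_anti le_sup_left).trans (h_dg_dg f hr)
  constructor <;> linarith

/-- small functions have small entropy -/
theorem H_dg_of_mem {f : QS S} {r : ℝ} (hr : r ≤ 1) (hf : f ∈ QS.Id S r) :
    H (dg f 1) ≤ 1 - r := by
  have e1 : dg f r = ⊥ := dg_of_mem_Id hf le_rfl hr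
  have e2 := h_dg_dg f hr
  rw [e1, h_bot] at e2
  exact e2

theorem h_dg_of_mem {f : QS S} {r : ℝ} (hr : r ≤ 1) (hf : f ∈ QS.Id S r) (A : S.L) :
    h (dg f 1) A ≤ 1 - r := (h_le_H _ _).trans (H_dg_of_mem hr hf)

/-- products of small functions -/
theorem mul_mem_Id {f g : QS S} {r s : ℝ} (hf : f ∈ QS.Id S r) (hg : g ∈ QS.Id S s) :
    f * g ∈ QS.Id S (r + s) := by
  rcases le_total 1 r with h1 | h1
  · have h2 : f = 0 := mem_Id_one.mp (Id_anti h1 hf)
    rw [h2, zero_mul]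
    exact (QS.Id S (r + s)).zero_mem
  rcases le_total 1 s with h1' | h1'
  · have h2 : g = 0 := mem_Id_one.mp (Id_anti h1' hg)
    rw [h2, mul_zero]
    exact (QS.Id S (r + s)).zero_mem
  obtain ⟨f, rfl⟩ := mk_surj f
  obtain ⟨g, rfl⟩ := mk_surj g
  rw [mk_mem_Id h1] at hf
  rw [mk_mem_Id h1'] at hg
  have key : TR.Ag (r + s) (f * g) 0 := by
    obtain ⟨E, K, hE, hK, hh⟩ := hf
    obtain ⟨E', K', hE', hK', hh'⟩ := hg
    refine ⟨_, _, hE.and hE', hK.mul hK', ?_⟩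
    filter_upwards [hh, hh', hK.1] with k a b c ω hω hE2
    have h3 := a ω hω hE2.1
    have h4 := b ω hω hE2.2
    rw [TR.ev_zero, sub_zero] at h3 h4 ⊢
    rw [TR.ev_mul, abs_mul, S.dl_add]
    have h5 := mul_le_mul h3 h4 (abs_nonneg _) (mul_nonneg c (S.dl_pos r k).le)
    calc _ ≤ K k * S.dl r k * (K' k * S.dl s k) := h5
      _ = K k * K' k * (S.dl r k * S.dl s k) := by ring
  rcases le_total (r + s) 1 with h2 | h2
  · rw [← map_mul, mk_mem_Id h2]
    exact key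
  · have h3 : mk (f * g) ∈ QS.Id S 1 := by
      rw [mk_mem_Id le_rfl]
      exact key.anti h2
    have h4 : mk f * mk g = 0 := by
      rw [← map_mul]
      exact mem_Id_one.mp h3
    rw [h4]
    exact (QS.Id S (r + s)).zero_mem

/-- all functions are in the ideals of nonpositive level -/
theorem mem_Id_zero (f : QS S) : f ∈ QS.Id S 0 := mem_Id_nonpos le_rfl

end

end Pool.Agent.Helper96.FLT
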