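import Pool.Agent.Helper96.FLT.Fr

/-! Flat theorem: thin rectangles and the rule S. The exponents of the boxes over a flat base. -/

set_option autoImplicit false

namespace Pool.Agent.Helper96.FLT

open Pool.Agent.Helper31.EC QS Pool.Agent.Helper38.NS

noncomputable section

namespace FV

variable {S : Sp} {d N : ℕ}

/-- RULE S for the weights `w`: if the top coordinates absorb `τ u + e` over the base line, `τ` real of size
`2 ^ (-y n)` over everything frozen, `u` frozen, `e` inside the box of level `σ`, then `2 ^ (-y n) u` is inside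
this box -/
def RuleS (s : FV S d N) (w : Fin N → ℝ) : Prop :=
  ∀ (D : Sp) (p p' : Pj D S) (τ : QS D) (u e : Fin N → QS D) (B : D.L) (y σ : ℝ),
    0 ≤ y → y ≤ 1 → 0 ≤ σ → (∀ i, w i * σ ≤ 1) →
    (∀ i, p.qs (s.a i) = p'.qs (s.a i)) → (∀ i, p.qs (s.x i) = p'.qs (s.x i)) →
    (∀ i, p'.qs (s.b i) = p.qs (s.b i) + τ * u i + e i) →
    τ ∈ QS.Id D y → p.map s.iL ≤ B → vd u 1 ≤ B → h (dg τ 1) B = 1 - y →
    (∀ i, e i ∈ QS.Id D (w i * σ)) →
    I (p.map s.iB) (B ⊔ dg τ 1 ⊔ vd e 1) (p.map s.iL) = 0 →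
    I (p'.map s.iB) (B ⊔ dg τ 1 ⊔ vd e 1) (p.map s.iL) = 0 →
    ∀ i, u i ∈ QS.Id D (w i * σ - y)

/-- FIRST JETS: at every level `y` the slopes are linear functions of the direction up to `2 ^ (-κ y n)`, with
coefficients known to the digits of level `y` of the base point -/
def Jets (s : FV S d N) (κ : Fin N → ℝ) : Prop :=
  ∀ y : ℝ, 0 ≤ y → y ≤ 1 → ∃ (c0 : Fin N → QS S) (c : Fin N → Fin d → QS S),
    (∀ i, s.F i - (c0 i + ∑ j, c i j * s.x j) ∈ QS.Id S (κ i * y)) ∧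
    (∀ i, dg (c0 i) 1 ≤ dg s.t y ⊔ vd s.y y) ∧ ∀ i j, dg (c i j) 1 ≤ dg s.t y ⊔ vd s.y y

/-- the size of slope differences is sharp at every scale -/
def Sharp (s : FV S d N) (κ : Fin N → ℝ) : Prop :=
  ∀ (i : Fin N) (y r : ℝ), 0 ≤ y → y < 1 → κ i * y < r →
    ¬ ∀ (w : s.Star) (v : Zed w y), v.Cd i ∈ QS.Id v.D r

theorem qs_mem {T : Sp} (p : Pj T S) {f : QS S} {r : ℝ} (h : f ∈ QS.Id S r) : p.qs f ∈ QS.Id T r := by
  rcases le_total r 1 with h2 | h2
  · exact (p.qs_mem_Id h2).mpr h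
  · have h3 : f = 0 := mem_Id_one.mp (Id_anti h2 h)
    rw [h3, map_zero]
    exact (QS.Id T _).zero_mem

theorem yr_le (s : FV S d N) {r : ℝ} (hr : r ≤ 1) : vd s.y r ≤ s.iL ⊔ dg s.t r := by
  rw [vd_le]
  intro i
  unfold y iL
  have a1 := dg_add_le (s.a i) (s.t * s.x i) hr
  have a2 := dg_mul_le s.t (s.x i) hr
  have a3 := (dg_mono (s.a i) hr).trans (dg_le_vd s.a 1 i)
  have a4 := (dg_mono (s.x i) hr).trans (dg_le_vd s.x 1 i)
  order

/-- the family of the first jets -/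
def jf (c0 : Fin N → QS S) (c : Fin N → Fin d → QS S) : (Fin N ⊕ (Fin N × Fin d)) → QS S :=
  Sum.elim c0 (fun a => c a.1 a.2)

theorem vd_jf {c0 : Fin N → QS S} {c : Fin N → Fin d → QS S} {A : S.L} (h0 : ∀ i, dg (c0 i) 1 ≤ A)
    (h1 : ∀ i j, dg (c i j) 1 ≤ A) : vd (jf c0 c) 1 ≤ A := by
  rw [vd_le]
  rintro (i | a)
  · exact h0 i
  · exact h1 a.1 a.2

/-- two lines with the same direction and the same first jets -/
theorem jets_sub {D : Sp} (p p' : Pj D S) {s : FV S d N} {r : ℝ} {i : Fin N} {c0 : Fin N → QS S}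
    {c : Fin N → Fin d → QS S} (hc : s.F i - (c0 i + ∑ j, c i j * s.x j) ∈ QS.Id S r)
    (hx : ∀ j, p.qs (s.x j) = p'.qs (s.x j)) (h0 : p.qs (c0 i) = p'.qs (c0 i))
    (h1 : ∀ j, p.qs (c i j) = p'.qs (c i j)) : p'.qs (s.F i) - p.qs (s.F i) ∈ QS.Id D r := by
  have e1 := qs_mem p hc
  have e2 := qs_mem p' hc
  simp only [map_sub, map_add, map_sum, map_mul] at e1 e2
  have e3 := (QS.Id D r).sub_mem e2 e1
  have e4 : p'.qs (s.F i) - (p'.qs (c0 i) + ∑ j, p'.qs (c i j) * p'.qs (s.x j)) -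
      (p.qs (s.F i) - (p.qs (c0 i) + ∑ j, p.qs (c i j) * p.qs (s.x j))) =
      p'.qs (s.F i) - p.qs (s.F i) := by
    rw [h0]
    have e5 : ∑ j, p.qs (c i j) * p.qs (s.x j) = ∑ j, p'.qs (c i j) * p'.qs (s.x j) :=
      Finset.sum_congr rfl fun j _ => by rw [h1 j, hx j]
    rw [e5]
    ring
  rw [e4] at e3
  exact e3

/-- Z-shapes with small slope differences -/
theorem exists_zed_jets {s : FV S d N} (hs : s.Hyp) {κ : Fin N → ℝ} (hj : s.Jets κ) (w : s.Star) {r : ℝ}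
    (h0 : 0 ≤ r) (hr : r ≤ 1) : ∃ v : Zed w r, ∀ i, v.Cd i ∈ QS.Id v.D (κ i * r) := by
  obtain ⟨c0, c, hc, hc0, hc1⟩ := hj r h0 hr
  have hf : vd (fun a => w.p2.qs (jf c0 c a)) 1 ≤
      w.p1.map (s.iL ⊔ s.iB) ⊔ w.p2.map s.iX ⊔ w.p1.map (dg s.t r) := by
    rw [w.p2.qs_vd]
    have h1 := w.p2.map_mono (vd_jf hc0 hc1)
    have h2 : w.p2.map (vd s.y r) = w.p1.map (vd s.y r) := by
      rw [← w.p1.qs_vd, ← w.p2.qs_vd]
      exact (vd_congr w.cy r).symm
    rw [w.p2.map_sup, w.eTr, h2] at h1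
    have h3 := w.p1.map_mono (s.yr_le hr)
    rw [w.p1.map_sup] at h3
    rw [w.p1.map_sup]
    order
  obtain ⟨v, hv⟩ := exists_zed' hs w h0 hr _ hf
  refine ⟨v, fun i => ?_⟩
  have h1 := jets_sub (v.q1.comp w.p2) (v.q2.comp w.p2) (hc i) (fun j => ?_) ?_ (fun j => ?_)
  · rw [Pj.comp_qs, Pj.comp_qs] at h1
    exact h1
  · rw [Pj.comp_qs, Pj.comp_qs]
    exact v.cx j
  · rw [Pj.comp_qs, Pj.comp_qs]
    exact hv (Sum.inl i)
  · rw [Pj.comp_qs, Pj.comp_qs]
    exact hv (Sum.inr (i, j))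

/-- rectangles with small slope differences of the first lines -/
theorem exists_rct_jets {s : FV S d N} (hs : s.Hyp) {κ : Fin N → ℝ} (hj : s.Jets κ) {w : s.Star} {r : ℝ}
    (v : Zed w r) {ρ : ℝ} (h0 : 0 ≤ ρ) (hρ : ρ ≤ 1) :
    ∃ g : Rct v ρ, ∀ i, g.A i ∈ QS.Id g.D (κ i * ρ) := by
  obtain ⟨c0, c, hc, hc0, hc1⟩ := hj ρ h0 hρ
  have hf : vd (fun a => v.q1.qs (w.p1.qs (jf c0 c a))) 1 ≤
      v.K' ⊔ v.U ⊔ dg v.tau 1 ⊔ v.q1.map (w.p1.map (dg s.t ρ)) := by
    rw [v.q1.qs_vd, w.p1.qs_vd]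
    have h1 := w.p1.map_mono (vd_jf hc0 hc1)
    have h2 : w.p1.map (vd s.y ρ) = w.p2.map (vd s.y ρ) := by
      rw [← w.p1.qs_vd, ← w.p2.qs_vd]
      exact vd_congr w.cy ρ
    have h3 := w.p2.map_mono (s.yr_le hρ)
    rw [w.p2.map_sup, w.eTr] at h3
    rw [w.p1.map_sup, h2] at h1
    have h4 := v.q1.map_mono (h1.trans (sup_le le_sup_right h3))
    rw [v.q1.map_sup] at h4
    have h5 := v.lK
    have h6 : v.q2.map (w.p2.map s.iL) ≤ v.K' := v.q2.map_mono (w.p2.map_mono le_sup_left)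
    order
  obtain ⟨g, hg⟩ := exists_rct' hs v h0 hρ _ hf
  refine ⟨g, fun i => ?_⟩
  have h1 := jets_sub ((g.s1.comp v.q1).comp w.p1) ((g.s2.comp v.q1).comp w.p1) (hc i) (fun j => ?_) ?_
    (fun j => ?_)
  · rw [Pj.comp_qs, Pj.comp_qs, Pj.comp_qs, Pj.comp_qs] at h1
    exact h1
  · rw [Pj.comp_qs, Pj.comp_qs, Pj.comp_qs, Pj.comp_qs]
    exact g.cu j
  · rw [Pj.comp_qs, Pj.comp_qs, Pj.comp_qs, Pj.comp_qs]
    exact hg (Sum.inl i)
  · rw [Pj.comp_qs, Pj.comp_qs, Pj.comp_qs, Pj.comp_qs]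
    exact hg (Sum.inr (i, j))

namespace Rct

variable {s : FV S d N} {w : s.Star} {r ρ : ℝ} {v : Zed w r} (g : Rct v ρ)

theorem C_eq (i : Fin N) : g.C i = g.s1.qs (v.Cd i) := by
  unfold C Fz Fx0 Zed.Cd
  rw [map_sub]

open Classical in
/-- GENERAL FORM: rule S applied to a rectangle, the coordinates in `J` are frozen, the others are inside the box -/
theorem noise (hs : s.Hyp) {W : Fin N → ℝ} (hW : s.RuleS W) (h0 : 0 ≤ r) (hr : r ≤ 1) (h0' : 0 ≤ ρ)
    (hρ : ρ ≤ 1) (J : Finset (Fin N)) {σ : ℝ} (hσ : 0 ≤ σ) (hσ1 : ∀ i, W i * σ ≤ 1)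
    (hA : ∀ i, g.tau * g.A i ∈ QS.Id g.D (W i * σ))
    (hC : ∀ i, i ∉ J → g.al * g.C i ∈ QS.Id g.D (W i * σ)) (i : Fin N) (hi : i ∈ J) :
    v.Cd i ∈ QS.Id v.D (W i * σ - ρ) := by
  obtain ⟨B, hB⟩ : ∃ B, B = g.L ⊔ g.U ⊔ g.T0 ⊔ dg g.tau 1 := ⟨_, rfl⟩
  obtain ⟨u, hu⟩ : ∃ u : Fin N → QS g.D, u = fun i => if i ∈ J then g.C i else 0 := ⟨_, rfl⟩
  obtain ⟨e, he⟩ : ∃ e : Fin N → QS g.D,
    e = fun i => (if i ∈ J then 0 else g.al * g.C i) - g.tau * g.A i := ⟨_, rfl⟩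
  have hL : (g.s1.comp v.q1).map (w.p2.map s.iL) = g.L := Pj.comp_map _ _ _
  have hL' : ((g.s1.comp v.q1).comp w.p2).map s.iL = g.L := by
    rw [Pj.comp_map, hL]
  have lC := g.lC hs
  have lA := g.lA hs
  have lal := g.al_le
  have hal := g.al_mem
  have uB : vd u 1 ≤ B := by
    rw [vd_le]
    intro j
    rw [hu]
    beta_reduce
    split_ifs with hj
    · have h1 := dg_le_vd g.C 1 j
      order
    · have h1 : (0 : QS g.D) ∈ Kn g.D 1 le_rfl B := (Kn g.D 1 le_rfl B).zero_mem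
      exact mem_Kn.mp h1
  have eB : vd e 1 ≤ g.L ⊔ g.U ⊔ g.T0 ⊔ g.T1 ⊔ dg g.tau 1 := by
    rw [vd_le]
    intro j
    have m0 : ∀ f : QS g.D, dg f 1 ≤ g.L ⊔ g.U ⊔ g.T0 ⊔ g.T1 ⊔ dg g.tau 1 ↔
      f ∈ Kn g.D 1 le_rfl (g.L ⊔ g.U ⊔ g.T0 ⊔ g.T1 ⊔ dg g.tau 1) := fun f => Iff.rfl
    have h1 := dg_le_vd g.C 1 j
    have h2 := dg_le_vd g.A 1 j
    have m1 := (m0 (g.C j)).mp (by order)
    have m2 := (m0 (g.A j)).mp (by order)
    have m3 := (m0 g.al).mp (by order)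
    have m4 := (m0 g.tau).mp (by order)
    rw [m0, he]
    beta_reduce
    refine Subring.sub_mem _ ?_ (Subring.mul_mem _ m4 m2)
    split_ifs with hj
    · exact Subring.zero_mem _
    · exact Subring.mul_mem _ m3 m1
  have key := hW g.D ((g.s1.comp v.q1).comp w.p2) ((g.s2.comp v.q1).comp w.p2) g.al u e B ρ σ h0' hρ hσ
    hσ1
  simp only [Pj.comp_qs] at key
  have e1 : ((g.s1.comp v.q1).comp w.p2).map s.iB = vd g.b0 1 := by
    rw [Pj.comp_map, Pj.comp_map]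
    unfold iB
    rw [← w.p2.qs_vd, ← v.q1.qs_vd, ← g.s1.qs_vd]
    rfl
  have e2 : ((g.s2.comp v.q1).comp w.p2).map s.iB = vd g.b1 1 := by
    rw [Pj.comp_map, Pj.comp_map]
    unfold iB
    rw [← w.p2.qs_vd, ← v.q1.qs_vd, ← g.s2.qs_vd]
    rfl
  rw [hL', e1, e2] at key
  have h1 := key (fun j => g.aa j) (fun j => g.ax j) ?_ hal ?_ uB ?_ ?_ ?_ ?_ i
  · rw [hu] at h1
    beta_reduce at h1
    rw [if_pos hi, g.C_eq] at h1
    have h3 : W i * σ - ρ ≤ 1 := by linarith [hσ1 i]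
    exact (g.s1.qs_mem_Id h3).mp h1
  · intro j
    have h2 : g.s2.qs (v.q1.qs (w.p2.qs (s.b j))) = g.b1 j := rfl
    have h3 : g.s1.qs (v.q1.qs (w.p2.qs (s.b j))) = g.b0 j := rfl
    rw [h2, h3, g.rect_eq, hu, he]
    beta_reduce
    split_ifs <;> ring
  · rw [hB]
    order
  · apply le_antisymm (h_dg_of_mem hρ hal _)
    rw [← g.h_al hs h0 hr h0' hρ]
    apply h_anti
    have hK := g.K0_eq
    rw [hB]
    order
  · intro j
    rw [he]
    beta_reduce
    refine (QS.Id g.D _).sub_mem ?_ (hA j)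
    split_ifs with hj
    · exact (QS.Id g.D _).zero_mem
    · exact hC j hj
  · have h2 := g.c1 hs h0 hr hρ
    exact ind_of h2 le_rfl (by order) (by order) (by rw [hB]; order)
  · have h2 := g.c2 hs h0 hr hρ
    exact ind_of h2 le_rfl (by order) (by order) (by rw [hB]; order)

end Rct

/-- (4.2)(a): slopes of parallel lines at distance `2 ^ (-r n)`, from the thin rectangle of length one -/
theorem thin_a {s : FV S d N} (hs : s.Hyp) {W : Fin N → ℝ} (hW : s.RuleS W) {M : ℝ} (hM : 0 < M)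
    (hWM : ∀ i, W i ≤ M) {w : s.Star} {r : ℝ} (v : Zed w r) (h0 : 0 ≤ r) (hr : r ≤ 1) (i : Fin N) :
    v.Cd i ∈ QS.Id v.D (W i * (r / M)) := by
  obtain ⟨g⟩ := exists_rct hs v (ρ := 0) le_rfl zero_le_one
  have h1 : ∀ j, W j * (r / M) ≤ r := by
    intro j
    rw [← mul_div_assoc, div_le_iff₀ hM, mul_comm]
    exact mul_le_mul_of_nonneg_left (hWM j) h0
  have h2 := g.noise hs hW h0 hr le_rfl zero_le_one Finset.univ (σ := r / M) (div_nonneg h0 hM.le)
    (fun j => (h1 j).trans hr) (fun j => ?_) (fun j hj => absurd (Finset.mem_univ j) hj) i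
    (Finset.mem_univ i)
  · rw [sub_zero] at h2
    exact h2
  · exact (QS.Id g.D _).mul_mem_right _ (Id_anti (h1 j) (g.tau_mem hr))

/-- (4.2)(b): slopes of parallel lines at distance one, from the thin rectangles -/
theorem thin_b {s : FV S d N} (hs : s.Hyp) {W : Fin N → ℝ} (hW : s.RuleS W) {M δ : ℝ} (hM : 1 < M)
    (hb : s.Jets (fun i => W i - 1)) (hWM : ∀ i, W i ≤ M) (hδ : 0 < δ) (h1 : ∀ i, (1 + δ) * W i ≤ (W i - 1) * M)
    (h2 : ∀ i, W i < M → (1 + δ) * W i ≤ M) {w : s.Star} (v : Zed w 0) (i : Fin N) (hi : W i = M) :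
    v.Cd i ∈ QS.Id v.D (δ / (1 + δ)) := by
  have hM0 : 0 < M := by linarith
  have hd : 0 < 1 + δ := by linarith
  obtain ⟨y, hy⟩ : ∃ y, y = 1 / (1 + δ) := ⟨_, rfl⟩
  have hy0 : 0 < y := by rw [hy]; positivity
  have hy1 : y ≤ 1 := by
    rw [hy, div_le_one hd]
    linarith
  have hyd : (1 + δ) * y = 1 := by
    rw [hy, mul_one_div, div_self hd.ne']
  obtain ⟨g, hg⟩ := exists_rct_jets hs hb v hy0.le hy1
  have hσ : ∀ j, W j * (1 / M) = (1 + δ) * W j / M * y := by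
    intro j
    have h3 : (1 + δ) * W j / M * y = (1 + δ) * y * (W j * (1 / M)) := by
      field_simp
    rw [h3, hyd, one_mul]
  have hσ1 : ∀ j, W j * (1 / M) ≤ 1 := by
    intro j
    rw [mul_one_div, div_le_one hM0]
    exact hWM j
  have h3 := g.noise hs hW le_rfl zero_le_one hy0.le hy1 (Finset.univ.filter fun j => W j = M)
    (σ := 1 / M) (by positivity) hσ1 (fun j => ?_) (fun j hj => ?_) i (by simpa using hi)
  · have h4 : W i * (1 / M) - y = δ / (1 + δ) := by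
      rw [hi, mul_one_div, div_self hM0.ne', hy]
      field_simp
      ring
    rw [h4] at h3
    exact h3
  · have h4 := hg j
    beta_reduce at h4
    have h5 : W j * (1 / M) ≤ (W j - 1) * y := by
      rw [hσ j]
      apply mul_le_mul_of_nonneg_right _ hy0.le
      rw [div_le_iff₀ hM0]
      exact h1 j
    exact (QS.Id g.D _).mul_mem_left _ (Id_anti h5 h4)
  · rw [Finset.mem_filter] at hj
    have hj' : W j < M := lt_of_le_of_ne (hWM j) (fun hc => hj ⟨Finset.mem_univ j, hc⟩)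
    have h5 : W j * (1 / M) ≤ y := by
      rw [hσ j]
      have h6 : (1 + δ) * W j / M ≤ 1 := by
        rw [div_le_one hM0]
        exact h2 j hj'
      have h7 := mul_le_mul_of_nonneg_right h6 hy0.le
      rwa [one_mul] at h7
    exact (QS.Id g.D _).mul_mem_right _ (Id_anti h5 g.al_mem)

/-- THE WEIGHTS OF A FLAT SYSTEM: all weights are equal to two, or there is the borderline pattern
`(W i - 1) (M - 1) = 1` with `M > 2` -/
theorem weights {s : FV S d N} (hs : s.Hyp) {W : Fin N → ℝ} (hW : s.RuleS W)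
    (hb : s.Jets (fun i => W i - 1)) (hsh : s.Sharp (fun i => W i - 1)) {M : ℝ}
    (hW1 : ∀ i, 1 < W i) (hWM : ∀ i, W i ≤ M) (i0 : Fin N) (hi0 : W i0 = M) :
    (∀ i, W i = 2) ∨ (2 < M ∧ ∃ i, (W i - 1) * (M - 1) = 1) := by
  have hM1 : 1 < M := hi0 ▸ hW1 i0
  have hM0 : 0 < M := by linarith
  -- part (a)
  have ha : ∀ i, W i ≤ (W i - 1) * M := by
    intro i
    by_contra hc
    have hc := not_le.mp hc
    refine hsh i (1 / 2) (W i * (1 / 2 / M)) (by norm_num) (by norm_num) ?_ ?_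
    · have h1 : W i * (1 / 2 / M) = W i / M * (1 / 2) := by ring
      beta_reduce
      rw [h1]
      apply mul_lt_mul_of_pos_right _ (by norm_num)
      rw [lt_div_iff₀ hM0]
      exact hc
    · intro w v
      exact thin_a hs hW hM0 hWM v (by norm_num) (by norm_num) i
  have hM2 : 2 ≤ M := by
    have h1 := ha i0
    rw [hi0] at h1
    have h2 : 1 ≤ M - 1 := by
      have h3 : 1 * M ≤ (M - 1) * M := by linarith
      exact le_of_mul_le_mul_right h3 hM0
    linarith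
  rcases eq_or_lt_of_le hM2 with h2 | h2
  · left
    intro i
    have h3 := ha i
    have h4 := hWM i
    rw [← h2] at h3 h4
    linarith
  · right
    refine ⟨h2, ?_⟩
    by_contra hne
    push Not at hne
    have hst : ∀ i, W i < (W i - 1) * M := by
      intro i
      refine lt_of_le_of_ne (ha i) fun hc => hne i ?_
      have h5 : (W i - 1) * (M - 1) = (W i - 1) * M - (W i - 1) := by ring
      rw [h5, ← hc]
      ring
    -- a common margin
    have hex : ∃ δ : ℝ, 0 < δ ∧ (∀ i, (1 + δ) * W i ≤ (W i - 1) * M) ∧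
        ∀ i, W i < M → (1 + δ) * W i ≤ M := by
      have h6 : ∀ i, ∃ δ : ℝ, 0 < δ ∧ (1 + δ) * W i ≤ (W i - 1) * M ∧ (W i < M → (1 + δ) * W i ≤ M) := by
        intro i
        have hWi : 0 < W i := by linarith [hW1 i]
        have h7 : 0 < ((W i - 1) * M - W i) / W i := div_pos (by linarith [hst i]) hWi
        by_cases h8 : W i < M
        · have h9 : 0 < (M - W i) / W i := div_pos (by linarith) hWi
          refine ⟨min (((W i - 1) * M - W i) / W i) ((M - W i) / W i), lt_min h7 h9, ?_, fun _ => ?_⟩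
          · have h10 := mul_le_mul_of_nonneg_right (min_le_left (((W i - 1) * M - W i) / W i)
              ((M - W i) / W i)) hWi.le
            rw [div_mul_cancel₀ _ hWi.ne'] at h10
            rw [add_mul, one_mul]
            linarith
          · have h10 := mul_le_mul_of_nonneg_right (min_le_right (((W i - 1) * M - W i) / W i)
              ((M - W i) / W i)) hWi.le
            rw [div_mul_cancel₀ _ hWi.ne'] at h10
            rw [add_mul, one_mul]
            linarith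
        · refine ⟨_, h7, ?_, fun h => absurd h h8⟩
          rw [add_mul, one_mul, div_mul_cancel₀ _ hWi.ne']
          linarith
      choose δ hδ1 hδ2 hδ3 using h6
      obtain ⟨j, -, hj⟩ := Finset.exists_min_image Finset.univ δ ⟨i0, Finset.mem_univ _⟩
      refine ⟨δ j, hδ1 j, fun i => ?_, fun i hi => ?_⟩
      · refine le_trans ?_ (hδ2 i)
        apply mul_le_mul_of_nonneg_right _ (by linarith [hW1 i])
        linarith [hj i (Finset.mem_univ i)]
      · refine le_trans ?_ (hδ3 i hi)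
        apply mul_le_mul_of_nonneg_right _ (by linarith [hW1 i])
        linarith [hj i (Finset.mem_univ i)]
    obtain ⟨δ, hδ, k1, k2⟩ := hex
    refine hsh i0 0 (δ / (1 + δ)) le_rfl one_pos ?_ ?_
    · beta_reduce
      rw [mul_zero]
      positivity
    · intro w v
      exact thin_b hs hW hM1 hb hWM hδ k1 k2 v i0 hi0

end FV

end

end Pool.Agent.Helper96.FLT
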