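import Pool.Agent.Helper96.FLT.Fv

/-! Exact entropy calculus: rectangles of any thickness over a flat base, vector valued top coordinates. -/

set_option autoImplicit false

namespace Pool.Agent.Helper96.FLT

open Pool.Agent.Helper31.EC QS Pool.Agent.Helper38.NS

noncomputable section

namespace FV

variable {S : Sp} {d N : ℕ}

/-- rectangle of thicknesses `r` (side along the first line) and `ρ` (side along the parallel lines): two Z-shapes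
with the same second parallel line, the same `u`, the same `tau`, and first heights which agree to level `ρ` -/
structure Rct {s : FV S d N} {w : s.Star} {r : ℝ} (v : Zed w r) (ρ : ℝ) where
  D : Sp
  s1 : Pj D v.D
  s2 : Pj D v.D
  ca : ∀ i, s1.qs (v.q2.qs (w.p2.qs (s.a i))) = s2.qs (v.q2.qs (w.p2.qs (s.a i)))
  cx : ∀ i, s1.qs (v.q2.qs (w.p2.qs (s.x i))) = s2.qs (v.q2.qs (w.p2.qs (s.x i)))
  cb : ∀ i, s1.qs (v.q2.qs (w.p2.qs (s.b i))) = s2.qs (v.q2.qs (w.p2.qs (s.b i)))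
  cF : ∀ i, s1.qs (v.q2.qs (w.p2.qs (s.F i))) = s2.qs (v.q2.qs (w.p2.qs (s.F i)))
  cu : ∀ i, s1.qs (v.q1.qs (w.p1.qs (s.x i))) = s2.qs (v.q1.qs (w.p1.qs (s.x i)))
  cG : ∀ i, s1.qs (v.q1.qs (w.p2.qs (s.F i))) = s2.qs (v.q1.qs (w.p2.qs (s.F i)))
  ct : s1.qs v.tau = s2.qs v.tau
  ch : s2.qs (v.q1.qs (w.p1.qs s.t)) - s1.qs (v.q1.qs (w.p1.qs s.t)) ∈ QS.Id D ρ
  ci : ∀ x y, I (s1.map x) (s2.map y)
    (s1.map (v.K' ⊔ v.U ⊔ dg v.tau 1 ⊔ v.q1.map (w.p1.map (dg s.t ρ)))) = 0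

/-- rectangles; any finite family of functions known to the common data may be made common -/
theorem exists_rct' {s : FV S d N} (hs : s.Hyp) {w : s.Star} {r : ℝ} (v : Zed w r) {ρ : ℝ}
    (h0 : 0 ≤ ρ) (hρ : ρ ≤ 1) {κ : Type} [Fintype κ] (f : κ → QS v.D)
    (hf : vd f 1 ≤ v.K' ⊔ v.U ⊔ dg v.tau 1 ⊔ v.q1.map (w.p1.map (dg s.t ρ))) :
    ∃ g : Rct v ρ, ∀ i, g.s1.qs (f i) = g.s2.qs (f i) := by
  obtain ⟨g, hg1, hg2⟩ := exists_rd (v.q1.qs (w.p1.qs s.t)) h0 hρ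
  obtain ⟨D, s1, s2, c, i, -⟩ := exists_copyS
    (Sum.elim (fun i => v.q2.qs (w.p2.qs (s.a i))) (Sum.elim (fun i => v.q2.qs (w.p2.qs (s.x i)))
      (Sum.elim (fun i => v.q2.qs (w.p2.qs (s.b i)))
        (Sum.elim (fun i => v.q2.qs (w.p2.qs (s.F i)))
          (Sum.elim (fun i => v.q1.qs (w.p1.qs (s.x i))) (Sum.elim (fun _ : Unit => v.tau)
            (Sum.elim (fun _ : Unit => g) (Sum.elim (fun i => v.q1.qs (w.p2.qs (s.F i))) f))))))))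
  refine ⟨⟨D, s1, s2, fun j => c (Sum.inl j), fun j => c (Sum.inr (Sum.inl j)),
    fun j => c (Sum.inr (Sum.inr (Sum.inl j))), fun j => c (Sum.inr (Sum.inr (Sum.inr (Sum.inl j)))),
    fun j => c (Sum.inr (Sum.inr (Sum.inr (Sum.inr (Sum.inl j))))),
    fun j => c (Sum.inr (Sum.inr (Sum.inr (Sum.inr (Sum.inr (Sum.inr (Sum.inr (Sum.inl j)))))))),
    c (Sum.inr (Sum.inr (Sum.inr (Sum.inr (Sum.inr (Sum.inl ())))))), ?_, ?_⟩,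
    fun j => c (Sum.inr (Sum.inr (Sum.inr (Sum.inr (Sum.inr (Sum.inr (Sum.inr (Sum.inr j))))))))⟩
  · have e1 := (s1.qs_mem_Id hρ).mpr hg1
    have e2 := (s2.qs_mem_Id hρ).mpr hg1
    have e3 : s1.qs g = s2.qs g :=
      c (Sum.inr (Sum.inr (Sum.inr (Sum.inr (Sum.inr (Sum.inr (Sum.inl ())))))))
    have e4 := (QS.Id D ρ).sub_mem e2 e1
    simp only [map_sub] at e4
    rw [e3] at e4
    have e5 : s2.qs (v.q1.qs (w.p1.qs s.t)) - s2.qs g - (s1.qs (v.q1.qs (w.p1.qs s.t)) - s2.qs g) =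
        s2.qs (v.q1.qs (w.p1.qs s.t)) - s1.qs (v.q1.qs (w.p1.qs s.t)) := by ring
    rw [e5] at e4
    exact e4
  · have h7 : vd (fun i => v.q1.qs (w.p2.qs (s.F i))) 1 ≤ v.K' ⊔ v.U ⊔ dg v.tau 1 := by
      rw [vd_le]
      exact fun i => v.lFK hs i
    obtain ⟨G', hG'⟩ : ∃ G', G' = vd (fun i => v.q1.qs (w.p2.qs (s.F i))) 1 := ⟨_, rfl⟩
    obtain ⟨G2, hG2⟩ : ∃ G2, G2 = vd f 1 := ⟨_, rfl⟩
    rw [← hG2] at hf
    rw [vd_sum, vd_sum, vd_sum, vd_sum, vd_sum, vd_sum, vd_sum, vd_sum, vd_unit, vd_unit, ← hG',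
      ← hG2, v.q2.qs_vd, v.q2.qs_vd, v.q2.qs_vd, v.q2.qs_vd, v.q1.qs_vd, w.p2.qs_vd, w.p2.qs_vd,
      w.p2.qs_vd, w.p2.qs_vd, w.p1.qs_vd, hg2, v.q1.qs_dg, w.p1.qs_dg] at i
    rw [← hG'] at h7
    have h1 : v.q2.map (w.p2.map (vd s.F 1)) ≤ v.q2.map (w.p2.map s.iL) :=
      v.q2.map_mono (w.p2.map_mono hs.hF)
    have h3 : v.q2.map (w.p2.map s.iL) =
        v.q2.map (w.p2.map (vd s.a 1)) ⊔ v.q2.map (w.p2.map (vd s.x 1)) := by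
      unfold iL
      rw [w.p2.map_sup, v.q2.map_sup]
    have h4 : v.K' = v.q2.map (w.p2.map s.iL) ⊔ v.q2.map (w.p2.map (vd s.b 1)) := by
      unfold Zed.K' iB
      rw [w.p2.map_sup, v.q2.map_sup]
    have h5 : v.U = v.q1.map (w.p1.map (vd s.x 1)) := rfl
    obtain ⟨G, hG⟩ : ∃ G, G = v.q1.map (w.p1.map (dg s.t ρ)) := ⟨_, rfl⟩
    rw [← hG] at i hf ⊢
    have h2 : v.q2.map (w.p2.map (vd s.a 1)) ⊔ (v.q2.map (w.p2.map (vd s.x 1)) ⊔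
        (v.q2.map (w.p2.map (vd s.b 1)) ⊔ (v.q2.map (w.p2.map (vd s.F 1)) ⊔
        (v.q1.map (w.p1.map (vd s.x 1)) ⊔ (dg v.tau 1 ⊔ (G ⊔ (G' ⊔ G2))))))) =
        v.K' ⊔ v.U ⊔ dg v.tau 1 ⊔ G := by
      rw [h4, h5] at h7 hf
      rw [h4, h5]
      order
    rw [h2] at i
    exact i

theorem exists_rct {s : FV S d N} (hs : s.Hyp) {w : s.Star} {r : ℝ} (v : Zed w r) {ρ : ℝ}
    (h0 : 0 ≤ ρ) (hρ : ρ ≤ 1) : Nonempty (Rct v ρ) := by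
  obtain ⟨g, -⟩ := exists_rct' hs v h0 hρ (fun i : Empty => i.elim) (vd_empty _ _ _)
  exact ⟨g⟩

namespace Rct

variable {s : FV S d N} {w : s.Star} {r ρ : ℝ} {v : Zed w r} (g : Rct v ρ)

def T0 : g.D.L := g.s1.map v.T0
def T1 : g.D.L := g.s2.map v.T0
def U : g.D.L := g.s1.map v.U
def K0 : g.D.L := g.s1.map v.K
def K1 : g.D.L := g.s2.map v.K
def L : g.D.L := g.s1.map (v.q1.map (w.p2.map s.iL))
def tau : QS g.D := g.s1.qs v.tau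
def V3 : g.D.L := g.s1.map (v.K' ⊔ v.U ⊔ dg v.tau 1)
/-- common digits of the heights -/
def Tc : g.D.L := g.s1.map (v.q1.map (w.p1.map (dg s.t ρ)))

theorem tau_mem (hr : r ≤ 1) : g.tau ∈ QS.Id g.D r := (g.s1.qs_mem_Id hr).mpr v.tau_mem

theorem eU : g.s2.map v.U = g.U := by
  unfold U Zed.U iX
  rw [← w.p1.qs_vd, ← v.q1.qs_vd, ← g.s1.qs_vd, ← g.s2.qs_vd]
  exact (vd_congr g.cu 1).symm

theorem etau : g.s2.map (dg v.tau 1) = dg g.tau 1 := by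
  unfold tau
  rw [g.ct, g.s2.qs_dg]

theorem etau1 : g.s1.map (dg v.tau 1) = dg g.tau 1 := by
  unfold tau
  rw [g.s1.qs_dg]

theorem eTc (hρ : ρ ≤ 1) : g.s2.map (v.q1.map (w.p1.map (dg s.t ρ))) = g.Tc := by
  unfold Tc
  rw [← w.p1.qs_dg, ← v.q1.qs_dg, ← g.s1.qs_dg, ← g.s2.qs_dg]
  exact dg_eq_of_sub_mem g.ch le_rfl hρ

theorem Tc_le (hρ : ρ ≤ 1) : g.Tc ≤ g.T0 :=
  g.s1.map_mono (v.q1.map_mono (w.p1.map_mono (dg_mono s.t hρ)))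

theorem Tc_le' (hρ : ρ ≤ 1) : g.Tc ≤ g.T1 := by
  rw [← g.eTc hρ]
  exact g.s2.map_mono (v.q1.map_mono (w.p1.map_mono (dg_mono s.t hρ)))

theorem ax (i : Fin d) : g.s1.qs (v.q1.qs (w.p2.qs (s.x i))) =
    g.s2.qs (v.q1.qs (w.p2.qs (s.x i))) := by
  rw [v.cx i, g.cx i]

theorem aa (i : Fin d) : g.s1.qs (v.q1.qs (w.p2.qs (s.a i))) =
    g.s2.qs (v.q1.qs (w.p2.qs (s.a i))) := by
  rw [v.za i]
  simp only [map_sub, map_mul]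
  rw [g.ca i, g.cx i, g.cu i, g.ct]

theorem eL : g.s2.map (v.q1.map (w.p2.map s.iL)) = g.L := by
  unfold L iL
  rw [w.p2.map_sup, v.q1.map_sup, g.s1.map_sup, g.s2.map_sup]
  rw [← w.p2.qs_vd, ← w.p2.qs_vd, ← v.q1.qs_vd, ← v.q1.qs_vd, ← g.s1.qs_vd, ← g.s1.qs_vd,
    ← g.s2.qs_vd, ← g.s2.qs_vd]
  rw [vd_congr g.aa 1, vd_congr g.ax 1]

/-- heights and slopes as functions -/
def t0 : QS g.D := g.s1.qs (v.q1.qs (w.p1.qs s.t))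
def t1 : QS g.D := g.s2.qs (v.q1.qs (w.p1.qs s.t))
/-- length of the rectangle along the parallel lines -/
def al : QS g.D := g.t1 - g.t0
def Fr0 (i : Fin N) : QS g.D := g.s1.qs (v.q1.qs (w.p1.qs (s.F i)))
def Fr1 (i : Fin N) : QS g.D := g.s2.qs (v.q1.qs (w.p1.qs (s.F i)))
def Fx0 (i : Fin N) : QS g.D := g.s1.qs (v.q1.qs (w.p2.qs (s.F i)))
def Fx1 (i : Fin N) : QS g.D := g.s2.qs (v.q1.qs (w.p2.qs (s.F i)))
def Fz (i : Fin N) : QS g.D := g.s1.qs (v.q2.qs (w.p2.qs (s.F i)))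
def b0 (i : Fin N) : QS g.D := g.s1.qs (v.q1.qs (w.p2.qs (s.b i)))
def b1 (i : Fin N) : QS g.D := g.s2.qs (v.q1.qs (w.p2.qs (s.b i)))
/-- slope differences -/
def C (i : Fin N) : QS g.D := g.Fz i - g.Fx0 i
def A (i : Fin N) : QS g.D := g.Fr1 i - g.Fr0 i

theorem al_mem : g.al ∈ QS.Id g.D ρ := g.ch

theorem K0_eq : g.K0 = g.L ⊔ vd g.b0 1 := by
  have h1 : vd g.b0 1 = g.s1.map (v.q1.map (w.p2.map (vd s.b 1))) := by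
    rw [← w.p2.qs_vd, ← v.q1.qs_vd, ← g.s1.qs_vd]
    rfl
  rw [h1]
  unfold K0 Zed.K L iB
  rw [w.p2.map_sup, v.q1.map_sup, g.s1.map_sup]

theorem K1_eq : g.K1 = g.L ⊔ vd g.b1 1 := by
  have h1 : vd g.b1 1 = g.s2.map (v.q1.map (w.p2.map (vd s.b 1))) := by
    rw [← w.p2.qs_vd, ← v.q1.qs_vd, ← g.s2.qs_vd]
    rfl
  have h := g.eL
  rw [h1]
  unfold K1 Zed.K iB
  rw [w.p2.map_sup, v.q1.map_sup, g.s2.map_sup, h]

theorem V3_eq : g.V3 = g.s1.map v.K' ⊔ g.U ⊔ dg g.tau 1 := by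
  unfold V3 U
  rw [g.s1.map_sup, g.s1.map_sup, g.etau1]

theorem V3_eq' : g.s2.map (v.K' ⊔ v.U ⊔ dg v.tau 1) = g.V3 := by
  rw [g.V3_eq, g.s2.map_sup, g.s2.map_sup, g.eU, g.etau]
  have h3 : g.s2.map v.K' = g.s1.map v.K' := by
    unfold Zed.K' iL iB
    rw [w.p2.map_sup, w.p2.map_sup, v.q2.map_sup, v.q2.map_sup, g.s1.map_sup, g.s1.map_sup,
      g.s2.map_sup, g.s2.map_sup]
    rw [← w.p2.qs_vd, ← w.p2.qs_vd, ← w.p2.qs_vd, ← v.q2.qs_vd, ← v.q2.qs_vd, ← v.q2.qs_vd,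
      ← g.s1.qs_vd, ← g.s1.qs_vd, ← g.s1.qs_vd, ← g.s2.qs_vd, ← g.s2.qs_vd, ← g.s2.qs_vd]
    rw [vd_congr g.ca 1, vd_congr g.cx 1, vd_congr g.cb 1]
  rw [h3]

theorem f1 (hs : s.Hyp) (h0 : 0 ≤ r) (hr : r ≤ 1) (hρ : ρ ≤ 1) (y : v.D.L) :
    I g.T0 (g.V3 ⊔ g.s2.map y) g.Tc = 0 := by
  have h1 := g.s1.I_map v.T0 (v.K' ⊔ v.U ⊔ dg v.tau 1) ⊥
  rw [v.e4 hs h0 hr, g.s1.map_bot] at h1
  have h2 : I g.T0 g.V3 g.Tc = 0 := by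
    apply le_antisymm _ (I_nonneg _ _ _)
    have h2 := I_cond_le (A := g.T0) (A' := g.Tc) (B := g.V3) (C := ⊥) (g.Tc_le hρ)
    rw [sup_bot_eq] at h2
    exact h2.trans h1.le
  have h3 := g.ci v.T0 y
  rw [g.s1.map_sup] at h3
  exact ind_add h2 h3 rfl

theorem f1' (hs : s.Hyp) (h0 : 0 ≤ r) (hr : r ≤ 1) (hρ : ρ ≤ 1) (x : v.D.L) :
    I g.T1 (g.V3 ⊔ g.s1.map x) g.Tc = 0 := by
  have h1 := g.s2.I_map v.T0 (v.K' ⊔ v.U ⊔ dg v.tau 1) ⊥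
  rw [v.e4 hs h0 hr, g.s2.map_bot, g.V3_eq'] at h1
  have h2 : I g.T1 g.V3 g.Tc = 0 := by
    apply le_antisymm _ (I_nonneg _ _ _)
    have h2 := I_cond_le (A := g.T1) (A' := g.Tc) (B := g.V3) (C := ⊥) (g.Tc_le' hρ)
    rw [sup_bot_eq] at h2
    exact h2.trans h1.le
  have h3 := g.ci x v.T0
  rw [g.s1.map_sup] at h3
  exact ind_add h2 (ind_symm h3) rfl

theorem f2 (hs : s.Hyp) (h0 : 0 ≤ r) (hr : r ≤ 1) : I (dg g.tau 1) (g.K0 ⊔ g.U ⊔ g.T0) ⊥ = 0 := by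
  have h1 := g.s1.I_map (dg v.tau 1) (v.K ⊔ v.U ⊔ v.T0) ⊥
  rw [v.e5 hs h0 hr, g.s1.map_bot, g.s1.map_sup, g.s1.map_sup, g.etau1] at h1
  exact h1

theorem f2' (hs : s.Hyp) (h0 : 0 ≤ r) (hr : r ≤ 1) : I (dg g.tau 1) (g.K1 ⊔ g.U ⊔ g.T1) ⊥ = 0 := by
  have h1 := g.s2.I_map (dg v.tau 1) (v.K ⊔ v.U ⊔ v.T0) ⊥
  rw [v.e5 hs h0 hr, g.s2.map_bot, g.s2.map_sup, g.s2.map_sup, g.etau, g.eU] at h1
  exact h1

theorem f3 (hs : s.Hyp) : I g.T1 (g.K1 ⊔ g.U) ⊥ = 0 := by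
  have h1 := g.s2.I_map v.T0 (v.K ⊔ v.U) ⊥
  rw [v.e3' hs, g.s2.map_bot, g.s2.map_sup, g.eU] at h1
  exact h1

theorem f3' (hs : s.Hyp) : I g.T0 (g.K0 ⊔ g.U) ⊥ = 0 := by
  have h1 := g.s1.I_map v.T0 (v.K ⊔ v.U) ⊥
  rw [v.e3' hs, g.s1.map_bot, g.s1.map_sup] at h1
  exact h1

/-- directions are independent of the other line -/
theorem f5 (hs : s.Hyp) : I g.U g.K0 ⊥ = 0 := by
  have h0 := w.d1' hs
  have h1 := (v.q1.comp w.p1).I_map s.iX s.iX ⊥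
  have h2 : I (w.p1.map s.iX) (w.p2.map (s.iL ⊔ s.iB)) ⊥ = 0 :=
    ind_of h0 le_rfl bot_le le_sup_left (by order)
  have h3 := v.q1.I_map (w.p1.map s.iX) (w.p2.map (s.iL ⊔ s.iB)) ⊥
  rw [h2, v.q1.map_bot] at h3
  have h4 := g.s1.I_map (v.q1.map (w.p1.map s.iX)) (v.q1.map (w.p2.map (s.iL ⊔ s.iB))) ⊥
  rw [h3, g.s1.map_bot] at h4
  exact h4

theorem f5' (hs : s.Hyp) : I g.U g.K1 ⊥ = 0 := by
  have h0 := w.d1' hs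
  have h2 : I (w.p1.map s.iX) (w.p2.map (s.iL ⊔ s.iB)) ⊥ = 0 :=
    ind_of h0 le_rfl bot_le le_sup_left (by order)
  have h3 := v.q1.I_map (w.p1.map s.iX) (w.p2.map (s.iL ⊔ s.iB)) ⊥
  rw [h2, v.q1.map_bot] at h3
  have h4 := g.s2.I_map v.U v.K ⊥
  rw [g.eU, g.s2.map_bot] at h4
  exact h4.trans h3

/-- `T1` is independent of the first Z-shape over the common digits -/
theorem f4 (hs : s.Hyp) (h0 : 0 ≤ r) (hr : r ≤ 1) (hρ : ρ ≤ 1) :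
    I g.T1 (g.K0 ⊔ g.U ⊔ g.T0 ⊔ dg g.tau 1) g.Tc = 0 := by
  have h1 := g.f1' hs h0 hr hρ (v.K ⊔ v.U ⊔ v.T0 ⊔ dg v.tau 1)
  rw [g.s1.map_sup, g.s1.map_sup, g.s1.map_sup, g.etau1] at h1
  exact ind_of h1 le_rfl (by order) le_sup_left (by unfold K0 U T0; order)

theorem f4' (hs : s.Hyp) (h0 : 0 ≤ r) (hr : r ≤ 1) (hρ : ρ ≤ 1) :
    I g.T0 (g.K1 ⊔ g.U ⊔ g.T1 ⊔ dg g.tau 1) g.Tc = 0 := by
  have h1 := g.f1 hs h0 hr hρ (v.K ⊔ v.U ⊔ v.T0 ⊔ dg v.tau 1)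
  rw [g.s2.map_sup, g.s2.map_sup, g.s2.map_sup, g.etau, g.eU] at h1
  exact ind_of h1 le_rfl (by order) le_sup_left (by unfold K1 T1; order)

theorem T0_eq : g.T0 = dg g.t0 1 := by
  unfold T0 t0
  rw [v.T0_eq, ← g.s1.qs_dg]

theorem T1_eq : g.T1 = dg g.t1 1 := by
  unfold T1 t1
  rw [v.T0_eq, ← g.s2.qs_dg]

theorem HT0 (hs : s.Hyp) : H g.T0 = 1 := by
  unfold T0
  rw [g.s1.H_map, v.HT0 hs]

theorem HT1 (hs : s.Hyp) : H g.T1 = 1 := by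
  unfold T1
  rw [g.s2.H_map, v.HT0 hs]

theorem hT1c (hs : s.Hyp) (h0 : 0 ≤ ρ) (hρ : ρ ≤ 1) : h g.T1 g.Tc = 1 - ρ := by
  have h1 : h (dg g.t1 1) ⊥ = 1 := by
    rw [h_bot, ← g.T1_eq]
    exact g.HT1 hs
  have h2 := (h_dg_of_full h1 h0 hρ).2
  rw [sup_bot_eq] at h2
  have h3 : g.Tc = dg g.t1 ρ := by
    rw [← g.eTc hρ]
    unfold t1
    rw [← w.p1.qs_dg, ← v.q1.qs_dg, ← g.s2.qs_dg]
  rw [g.T1_eq, h3]
  exact h2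

theorem T1_le : g.T1 ≤ g.T0 ⊔ dg g.al 1 := by
  rw [g.T1_eq, g.T0_eq]
  have h1 : g.t1 = g.t0 + g.al := by
    unfold al
    ring
  conv_lhs => rw [h1]
  exact dg_add_le _ _ le_rfl

theorem al_le : dg g.al 1 ≤ g.T0 ⊔ g.T1 := by
  rw [g.T1_eq, g.T0_eq]
  unfold al
  refine (dg_sub_le _ _ le_rfl).trans ?_
  order

/-- `al` is real (of size `ρ`) over the first Z-shape -/
theorem h_al (hs : s.Hyp) (h0 : 0 ≤ r) (hr : r ≤ 1) (h0' : 0 ≤ ρ) (hρ : ρ ≤ 1) :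
    h (dg g.al 1) (g.K0 ⊔ g.U ⊔ g.T0 ⊔ dg g.tau 1) = 1 - ρ := by
  apply le_antisymm (h_dg_of_mem hρ g.al_mem _)
  have a1 := g.Tc_le hρ
  have h1 : h g.T1 (g.K0 ⊔ g.U ⊔ g.T0 ⊔ dg g.tau 1) = 1 - ρ := by
    rw [← g.hT1c hs h0' hρ]
    exact h_of_ind' (g.f4 hs h0 hr hρ) (by order) (by order)
  have h2 := h_mono (B := g.K0 ⊔ g.U ⊔ g.T0 ⊔ dg g.tau 1) g.T1_le
  have h3 := h_sup_le g.T0 (dg g.al 1) (g.K0 ⊔ g.U ⊔ g.T0 ⊔ dg g.tau 1)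
  have h4 : h g.T0 (g.K0 ⊔ g.U ⊔ g.T0 ⊔ dg g.tau 1) = 0 := h_zero (by order)
  linarith

theorem H_tau (hs : s.Hyp) (h0 : 0 ≤ r) (hr : r ≤ 1) : H (dg g.tau 1) = 1 - r := by
  rw [← g.etau1, g.s1.H_map, v.H_tau hs h0 hr]

/-- `tau` is independent of the first star and the second height -/
theorem f6 (hs : s.Hyp) (h0 : 0 ≤ r) (hr : r ≤ 1) (hρ : ρ ≤ 1) :
    I (dg g.tau 1) (g.K0 ⊔ g.U ⊔ g.T0 ⊔ g.T1) ⊥ = 0 := by
  have a1 := g.Tc_le hρ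
  refine ind_add (g.f2 hs h0 hr) (C' := g.K0 ⊔ g.U ⊔ g.T0 ⊔ ⊥) (ind_symm ?_) rfl
  rw [sup_bot_eq]
  exact ind_of (g.f4 hs h0 hr hρ) (by order) (by order) le_sup_left (by order)

/-- `tau` is real (of size `r`) over the first star and the second height -/
theorem h_tau (hs : s.Hyp) (h0 : 0 ≤ r) (hr : r ≤ 1) (hρ : ρ ≤ 1) :
    h (dg g.tau 1) (g.K0 ⊔ g.U ⊔ g.T0 ⊔ g.T1) = 1 - r := by
  have h1 := I_zero_iff_h.mp (g.f6 hs h0 hr hρ)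
  rw [sup_bot_eq, h_bot, g.H_tau hs h0 hr] at h1
  exact h1

/-- the top coordinates are independent of the data of the rectangle over the base line -/
theorem c1 (hs : s.Hyp) (h0 : 0 ≤ r) (hr : r ≤ 1) (hρ : ρ ≤ 1) :
    I (vd g.b0 1) (g.U ⊔ g.T0 ⊔ g.T1 ⊔ dg g.tau 1) g.L = 0 := by
  have hK := g.K0_eq
  have a1 := g.Tc_le hρ
  have i1 : I (vd g.b0 1) g.U g.L = 0 :=
    ind_symm (ind_of (g.f5 hs) bot_le (by order) le_sup_left (by order))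
  have i2 : I (vd g.b0 1) g.T0 (g.U ⊔ g.L) = 0 :=
    ind_symm (ind_of (g.f3' hs) bot_le (by order) le_sup_left (by order))
  have i3 : I (vd g.b0 1) g.T1 (g.U ⊔ g.T0 ⊔ g.L) = 0 :=
    ind_symm (ind_of (g.f4 hs h0 hr hρ) (by order) (by order) le_sup_left (by order))
  have i4 : I (vd g.b0 1) (dg g.tau 1) (g.U ⊔ g.T0 ⊔ g.T1 ⊔ g.L) = 0 :=
    ind_symm (ind_of (g.f6 hs h0 hr hρ) bot_le (by order) le_sup_left (by order))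
  exact ind_add (ind_add (ind_add i1 i2 rfl) i3 rfl) i4 rfl

theorem c2 (hs : s.Hyp) (h0 : 0 ≤ r) (hr : r ≤ 1) (hρ : ρ ≤ 1) :
    I (vd g.b1 1) (g.U ⊔ g.T0 ⊔ g.T1 ⊔ dg g.tau 1) g.L = 0 := by
  have hK := g.K1_eq
  have a1 := g.Tc_le' hρ
  have i1 : I (vd g.b1 1) g.U g.L = 0 :=
    ind_symm (ind_of (g.f5' hs) bot_le (by order) le_sup_left (by order))
  have i2 : I (vd g.b1 1) g.T1 (g.U ⊔ g.L) = 0 :=
    ind_symm (ind_of (g.f3 hs) bot_le (by order) le_sup_left (by order))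
  have i3 : I (vd g.b1 1) (dg g.tau 1) (g.U ⊔ g.T1 ⊔ g.L) = 0 :=
    ind_symm (ind_of (g.f2' hs h0 hr) bot_le (by order) le_sup_left (by order))
  have i4 : I (vd g.b1 1) g.T0 (g.U ⊔ g.T1 ⊔ dg g.tau 1 ⊔ g.L) = 0 :=
    ind_symm (ind_of (g.f4' hs h0 hr hρ) (by order) (by order) le_sup_left (by order))
  have h5 := ind_add (ind_add (ind_add i1 i2 rfl) i3 rfl) i4 rfl
  exact ind_of h5 le_rfl (by order) (by order) (by order)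

theorem lFx0 (hs : s.Hyp) (i : Fin N) : dg (g.Fx0 i) 1 ≤ g.L := by
  have h1 := g.s1.map_mono (v.q1.map_mono (w.lF2 hs i))
  unfold Fx0
  rw [g.s1.qs_dg, v.q1.qs_dg]
  exact h1

theorem lFx1 (hs : s.Hyp) (i : Fin N) : dg (g.Fx1 i) 1 ≤ g.L := by
  have h1 := g.s2.map_mono (v.q1.map_mono (w.lF2 hs i))
  rw [g.eL] at h1
  unfold Fx1
  rw [g.s2.qs_dg, v.q1.qs_dg]
  exact h1

theorem lFr0 (hs : s.Hyp) (i : Fin N) : dg (g.Fr0 i) 1 ≤ g.L ⊔ g.U ⊔ g.T0 := by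
  have h1 := g.s1.map_mono (v.q1.map_mono (w.lF hs i))
  rw [v.q1.map_sup, v.q1.map_sup, g.s1.map_sup, g.s1.map_sup] at h1
  unfold Fr0
  rw [g.s1.qs_dg, v.q1.qs_dg]
  exact h1

theorem lFr1 (hs : s.Hyp) (i : Fin N) : dg (g.Fr1 i) 1 ≤ g.L ⊔ g.U ⊔ g.T1 := by
  have h1 := g.s2.map_mono (v.q1.map_mono (w.lF hs i))
  rw [v.q1.map_sup, v.q1.map_sup, g.s2.map_sup, g.s2.map_sup, g.eL] at h1
  have h2 : g.s2.map (v.q1.map (w.p1.map s.iX)) = g.U := g.eU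
  rw [h2] at h1
  unfold Fr1
  rw [g.s2.qs_dg, v.q1.qs_dg]
  exact h1

theorem lKz : g.s1.map (v.q2.map (w.p2.map s.iL)) ≤ g.L ⊔ g.U ⊔ dg g.tau 1 := by
  have h1 := g.s1.map_mono v.lK'
  rw [g.s1.map_sup, g.s1.map_sup, g.etau1] at h1
  exact h1

theorem lFz (hs : s.Hyp) (i : Fin N) : dg (g.Fz i) 1 ≤ g.L ⊔ g.U ⊔ dg g.tau 1 := by
  have h1 := g.s1.map_mono (v.q2.map_mono (w.lF2 hs i))
  unfold Fz
  rw [g.s1.qs_dg, v.q2.qs_dg]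
  exact h1.trans g.lKz

/-- THE IDENTITY OF THE RECTANGLE -/
theorem rect_eq (i : Fin N) : g.b1 i = g.b0 i + g.al * g.C i - g.tau * g.A i := by
  have h1 := congrArg g.s1.qs (v.zb i)
  have h2 := congrArg g.s2.qs (v.zb i)
  simp only [map_sub, map_mul, map_add] at h1 h2
  rw [← g.cb i, ← g.cF i, ← g.ct, ← g.cG i] at h2
  unfold b1 b0 al C A t1 t0 Fz Fr1 Fr0 Fx0 tau
  linear_combination h2 - h1

theorem lC (hs : s.Hyp) : vd g.C 1 ≤ g.L ⊔ g.U ⊔ dg g.tau 1 := by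
  rw [vd_le]
  intro i
  unfold C
  refine (dg_sub_le _ _ le_rfl).trans ?_
  have a1 := g.lFz hs i
  have a2 := g.lFx0 hs i
  order

theorem lA (hs : s.Hyp) : vd g.A 1 ≤ g.L ⊔ g.U ⊔ g.T0 ⊔ g.T1 := by
  rw [vd_le]
  intro i
  unfold A
  refine (dg_sub_le _ _ le_rfl).trans ?_
  have a1 := g.lFr0 hs i
  have a2 := g.lFr1 hs i
  order

end Rct

end FV

end

end Pool.Agent.Helper96.FLT
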