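import Pool.Agent.Helper96.FLT.Rd
import Pool.Agent.Helper38.NS.Blk

/-! Exact entropy calculus: lines over a flat base with vector valued top coordinates; stars and Z-shapes of any
thickness (all produced by copies), and their independences. Vector valued version of Helper38/NS/Rect. -/

set_option autoImplicit false

namespace Pool.Agent.Helper96.FLT

open Pool.Agent.Helper31.EC QS Pool.Agent.Helper38.NS

noncomputable section

/-- lines over a flat base: height `t`, base line `(a, x)`, top coordinates `b + t F` -/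
structure FV (S : Sp) (d N : ℕ) where
  t : QS S
  a : Fin d → QS S
  x : Fin d → QS S
  b : Fin N → QS S
  F : Fin N → QS S

namespace FV

variable {S : Sp} {d N : ℕ}

/-- base point -/
def y (s : FV S d N) (i : Fin d) : QS S := s.a i + s.t * s.x i

/-- top coordinates -/
def z (s : FV S d N) (i : Fin N) : QS S := s.b i + s.t * s.F i

def iL (s : FV S d N) : S.L := vd s.a 1 ⊔ vd s.x 1
def iX (s : FV S d N) : S.L := vd s.x 1
def iT (s : FV S d N) : S.L := dg s.t 1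
def iY (s : FV S d N) : S.L := vd s.y 1
def iZ (s : FV S d N) : S.L := vd s.z 1
def iB (s : FV S d N) : S.L := vd s.b 1

/-- hypotheses: heights are free, slopes are functions of the base line, directions are independent of the point -/
structure Hyp (s : FV S d N) : Prop where
  ht : h s.iT (s.iL ⊔ s.iB) = 1
  hF : vd s.F 1 ≤ s.iL
  h1 : I s.iX (s.iY ⊔ s.iZ) s.iT = 0

theorem H_dg1 (f : QS S) : H (dg f 1) ≤ 1 := H_dg_le f zero_le_one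

theorem h_dg1 (f : QS S) (A : S.L) : h (dg f 1) A ≤ 1 := (h_le_H _ _).trans (H_dg1 f)

theorem Hyp.s0 {s : FV S d N} (hs : s.Hyp) : I s.iT (s.iL ⊔ s.iB) ⊥ = 0 := by
  refine ind_of_h ?_
  rw [sup_bot_eq, hs.ht]
  exact h_dg1 _ _

theorem Hyp.s1 {s : FV S d N} (hs : s.Hyp) : I s.iX (s.iT ⊔ (s.iY ⊔ s.iZ)) ⊥ = 0 := by
  refine ind_add (C' := s.iT) (ind_symm ?_) hs.h1 (by rw [sup_bot_eq])
  have h1 : s.iX ≤ s.iL := le_sup_right
  exact ind_of hs.s0 le_rfl bot_le le_sup_left (by order)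

theorem HT {s : FV S d N} (hs : s.Hyp) : H s.iT = 1 := by
  apply le_antisymm (H_dg1 s.t)
  have h1 := h_le_H s.iT (s.iL ⊔ s.iB)
  rw [hs.ht] at h1
  exact h1

/-- pullback to an extension -/
def pull {T : Sp} (p : Pj T S) (s : FV S d N) : FV T d N where
  t := p.qs s.t
  a := fun i => p.qs (s.a i)
  x := fun i => p.qs (s.x i)
  b := fun i => p.qs (s.b i)
  F := fun i => p.qs (s.F i)

theorem pull_y {T : Sp} (p : Pj T S) (s : FV S d N) (i : Fin d) : (s.pull p).y i = p.qs (s.y i) := by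
  unfold y pull
  rw [map_add, map_mul]

theorem pull_z {T : Sp} (p : Pj T S) (s : FV S d N) (i : Fin N) : (s.pull p).z i = p.qs (s.z i) := by
  unfold z pull
  rw [map_add, map_mul]

theorem pull_iX {T : Sp} (p : Pj T S) (s : FV S d N) : (s.pull p).iX = p.map s.iX := p.qs_vd s.x 1

theorem pull_iT {T : Sp} (p : Pj T S) (s : FV S d N) : (s.pull p).iT = p.map s.iT := p.qs_dg s.t 1

theorem pull_iB {T : Sp} (p : Pj T S) (s : FV S d N) : (s.pull p).iB = p.map s.iB := p.qs_vd s.b 1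

theorem pull_iL {T : Sp} (p : Pj T S) (s : FV S d N) : (s.pull p).iL = p.map s.iL := by
  unfold iL
  rw [p.map_sup, ← p.qs_vd, ← p.qs_vd]
  rfl

theorem pull_iY {T : Sp} (p : Pj T S) (s : FV S d N) : (s.pull p).iY = p.map s.iY := by
  unfold iY
  rw [← p.qs_vd]
  exact vd_congr (pull_y p s) 1

theorem pull_iZ {T : Sp} (p : Pj T S) (s : FV S d N) : (s.pull p).iZ = p.map s.iZ := by
  unfold iZ
  rw [← p.qs_vd]
  exact vd_congr (pull_z p s) 1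

theorem Hyp.pull {s : FV S d N} (hs : s.Hyp) {T : Sp} (p : Pj T S) : (s.pull p).Hyp where
  ht := by
    rw [pull_iT, pull_iL, pull_iB, ← p.map_sup, p.h_map]
    exact hs.ht
  hF := by
    rw [pull_iL]
    show vd (fun i => p.qs (s.F i)) 1 ≤ _
    rw [p.qs_vd]
    exact p.map_mono hs.hF
  h1 := by
    rw [pull_iX, pull_iY, pull_iZ, pull_iT, ← p.map_sup, p.I_map]
    exact hs.h1

/-- two lines through one point -/
structure Star (s : FV S d N) where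
  D : Sp
  p1 : Pj D S
  p2 : Pj D S
  cy : ∀ i, p1.qs (s.y i) = p2.qs (s.y i)
  cz : ∀ i, p1.qs (s.z i) = p2.qs (s.z i)
  ct : p1.qs s.t = p2.qs s.t
  ci : ∀ x y, I (p1.map x) (p2.map y) (p1.map (s.iT ⊔ (s.iY ⊔ s.iZ))) = 0

/-- stars; any finite family of functions known to the point may be made common -/
theorem exists_star' (s : FV S d N) {κ : Type} [Fintype κ] (f : κ → QS S)
    (hf : vd f 1 ≤ s.iT ⊔ (s.iY ⊔ s.iZ)) : ∃ w : s.Star, ∀ i, w.p1.qs (f i) = w.p2.qs (f i) := by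
  obtain ⟨D, p1, p2, c, i, -⟩ := exists_copyS
    (Sum.elim (fun _ : Unit => s.t) (Sum.elim s.y (Sum.elim s.z f)))
  rw [vd_sum, vd_sum, vd_sum, vd_unit] at i
  have h1 : dg s.t 1 ⊔ (vd s.y 1 ⊔ (vd s.z 1 ⊔ vd f 1)) = s.iT ⊔ (s.iY ⊔ s.iZ) := by
    have e1 : s.iT = dg s.t 1 := rfl
    have e2 : s.iY = vd s.y 1 := rfl
    have e3 : s.iZ = vd s.z 1 := rfl
    rw [e1, e2, e3] at hf ⊢
    order
  rw [h1] at i
  exact ⟨⟨D, p1, p2, fun j => c (Sum.inr (Sum.inl j)), fun j => c (Sum.inr (Sum.inr (Sum.inl j))),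
    c (Sum.inl ()), i⟩, fun j => c (Sum.inr (Sum.inr (Sum.inr j)))⟩

theorem vd_empty (f : Empty → QS S) (r : ℝ) (A : S.L) : vd f r ≤ A := by
  rw [vd_le]
  exact fun i => i.elim

theorem exists_star (s : FV S d N) : Nonempty s.Star := by
  obtain ⟨w, -⟩ := s.exists_star' (fun i : Empty => i.elim) (vd_empty _ _ _)
  exact ⟨w⟩

namespace Star

variable {s : FV S d N} (w : s.Star)

theorem eT : w.p2.map s.iT = w.p1.map s.iT := by
  unfold iT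
  rw [← w.p1.qs_dg, ← w.p2.qs_dg, w.ct]

theorem eTr (r : ℝ) : w.p2.map (dg s.t r) = w.p1.map (dg s.t r) := by
  rw [← w.p1.qs_dg, ← w.p2.qs_dg, w.ct]

theorem eY : w.p2.map s.iY = w.p1.map s.iY := by
  unfold iY
  rw [← w.p1.qs_vd, ← w.p2.qs_vd]
  exact (vd_congr w.cy 1).symm

theorem eZ : w.p2.map s.iZ = w.p1.map s.iZ := by
  unfold iZ
  rw [← w.p1.qs_vd, ← w.p2.qs_vd]
  exact (vd_congr w.cz 1).symm

/-- the direction of the second line is independent of the first line and the height -/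
theorem d1 (hs : s.Hyp) : I (w.p2.map s.iX) (w.p1.map (s.iL ⊔ s.iB) ⊔ w.p1.map s.iT) ⊥ = 0 := by
  have h1 := w.p2.I_map s.iX (s.iT ⊔ (s.iY ⊔ s.iZ)) ⊥
  rw [hs.s1, w.p2.map_bot, w.p2.map_sup, w.p2.map_sup, w.eT, w.eY, w.eZ, ← w.p1.map_sup,
    ← w.p1.map_sup] at h1
  have h2 := ind_add h1 (ind_symm (w.ci (s.iL ⊔ s.iB ⊔ s.iT) s.iX)) (by rw [sup_bot_eq])
  rw [w.p1.map_sup (s.iL ⊔ s.iB)] at h2
  exact ind_of h2 le_rfl bot_le le_sup_left (by order)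

theorem d1' (hs : s.Hyp) : I (w.p1.map s.iX) (w.p2.map (s.iL ⊔ s.iB) ⊔ w.p1.map s.iT) ⊥ = 0 := by
  have h1 := w.p1.I_map s.iX (s.iT ⊔ (s.iY ⊔ s.iZ)) ⊥
  rw [hs.s1, w.p1.map_bot] at h1
  have h2 := ind_add h1 (w.ci s.iX (s.iL ⊔ s.iB ⊔ s.iT)) (by rw [sup_bot_eq])
  rw [w.p2.map_sup (s.iL ⊔ s.iB), w.eT] at h2
  exact ind_of h2 le_rfl bot_le le_sup_left (by order)

/-- the height is independent of the first line and the direction of the second one -/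
theorem d2 (hs : s.Hyp) : I (w.p1.map s.iT) (w.p1.map (s.iL ⊔ s.iB) ⊔ w.p2.map s.iX) ⊥ = 0 := by
  have h1 := w.p1.I_map s.iT (s.iL ⊔ s.iB) ⊥
  rw [hs.s0, w.p1.map_bot] at h1
  refine ind_add h1 (C' := w.p1.map (s.iL ⊔ s.iB)) (ind_symm ?_) (by rw [sup_bot_eq])
  exact ind_of (w.d1 hs) bot_le (by order) le_sup_left (by order)

theorem d2' (hs : s.Hyp) : I (w.p1.map s.iT) (w.p2.map (s.iL ⊔ s.iB) ⊔ w.p1.map s.iX) ⊥ = 0 := by
  have h1 := w.p2.I_map s.iT (s.iL ⊔ s.iB) ⊥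
  rw [hs.s0, w.p2.map_bot, w.eT] at h1
  refine ind_add h1 (C' := w.p2.map (s.iL ⊔ s.iB)) (ind_symm ?_) (by rw [sup_bot_eq])
  exact ind_of (w.d1' hs) bot_le (by order) le_sup_left (by order)

/-- the first base line from the second one, the height and the direction -/
theorem la : w.p1.map s.iL ≤ w.p2.map s.iL ⊔ w.p1.map s.iX ⊔ w.p1.map s.iT := by
  unfold iL iX iT
  rw [w.p1.map_sup, w.p2.map_sup, ← w.p1.qs_vd, ← w.p1.qs_vd, ← w.p2.qs_vd, ← w.p2.qs_vd,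
    ← w.p1.qs_dg]
  refine sup_le ?_ (by order)
  rw [vd_le]
  intro i
  have h1 := w.cy i
  unfold y at h1
  simp only [map_add, map_mul] at h1
  rw [← w.ct] at h1
  have h2 : w.p1.qs (s.a i) = w.p2.qs (s.a i) + w.p1.qs s.t * w.p2.qs (s.x i) -
      w.p1.qs s.t * w.p1.qs (s.x i) := by linear_combination h1
  rw [h2]
  refine (dg_sub_le _ _ le_rfl).trans ?_
  have a1 := dg_add_le (w.p2.qs (s.a i)) (w.p1.qs s.t * w.p2.qs (s.x i)) (r := 1) le_rfl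
  have a2 := dg_mul_le (w.p1.qs s.t) (w.p2.qs (s.x i)) (r := 1) le_rfl
  have a3 := dg_mul_le (w.p1.qs s.t) (w.p1.qs (s.x i)) (r := 1) le_rfl
  have a4 := dg_le_vd (fun i => w.p2.qs (s.a i)) 1 i
  have a5 := dg_le_vd (fun i => w.p2.qs (s.x i)) 1 i
  have a6 := dg_le_vd (fun i => w.p1.qs (s.x i)) 1 i
  beta_reduce at a4 a5 a6
  order

theorem lF (hs : s.Hyp) (i : Fin N) :
    dg (w.p1.qs (s.F i)) 1 ≤ w.p2.map s.iL ⊔ w.p1.map s.iX ⊔ w.p1.map s.iT := by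
  rw [w.p1.qs_dg]
  exact (w.p1.map_mono ((dg_le_vd s.F 1 i).trans hs.hF)).trans w.la

theorem lF2 (hs : s.Hyp) (i : Fin N) : dg (w.p2.qs (s.F i)) 1 ≤ w.p2.map s.iL := by
  rw [w.p2.qs_dg]
  exact w.p2.map_mono ((dg_le_vd s.F 1 i).trans hs.hF)

end Star

/-- Z-shape of thickness `r`: two stars with the same first line, the same direction of the second line, and
heights which agree to level `r` -/
structure Zed {s : FV S d N} (w : s.Star) (r : ℝ) where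
  D : Sp
  q1 : Pj D w.D
  q2 : Pj D w.D
  ca : ∀ i, q1.qs (w.p1.qs (s.a i)) = q2.qs (w.p1.qs (s.a i))
  cu : ∀ i, q1.qs (w.p1.qs (s.x i)) = q2.qs (w.p1.qs (s.x i))
  cb : ∀ i, q1.qs (w.p1.qs (s.b i)) = q2.qs (w.p1.qs (s.b i))
  cF : ∀ i, q1.qs (w.p1.qs (s.F i)) = q2.qs (w.p1.qs (s.F i))
  cx : ∀ i, q1.qs (w.p2.qs (s.x i)) = q2.qs (w.p2.qs (s.x i))
  ct : q2.qs (w.p1.qs s.t) - q1.qs (w.p1.qs s.t) ∈ QS.Id D r
  ci : ∀ x y, I (q1.map x) (q2.map y)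
    (q1.map (w.p1.map (s.iL ⊔ s.iB) ⊔ w.p2.map s.iX ⊔ w.p1.map (dg s.t r))) = 0

/-- Z-shapes; any finite family of functions known to the common data may be made common -/
theorem exists_zed' {s : FV S d N} (hs : s.Hyp) (w : s.Star) {r : ℝ} (h0 : 0 ≤ r) (hr : r ≤ 1)
    {κ : Type} [Fintype κ] (f : κ → QS w.D)
    (hf : vd f 1 ≤ w.p1.map (s.iL ⊔ s.iB) ⊔ w.p2.map s.iX ⊔ w.p1.map (dg s.t r)) :
    ∃ v : Zed w r, ∀ i, v.q1.qs (f i) = v.q2.qs (f i) := by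
  obtain ⟨g, hg1, hg2⟩ := exists_rd (w.p1.qs s.t) h0 hr
  obtain ⟨D, q1, q2, c, i, -⟩ := exists_copyS
    (Sum.elim (fun i => w.p1.qs (s.a i)) (Sum.elim (fun i => w.p1.qs (s.x i))
      (Sum.elim (fun i => w.p1.qs (s.b i)) (Sum.elim (fun i => w.p1.qs (s.F i))
        (Sum.elim (fun i => w.p2.qs (s.x i)) (Sum.elim (fun _ : Unit => g) f))))))
  refine ⟨⟨D, q1, q2, fun j => c (Sum.inl j), fun j => c (Sum.inr (Sum.inl j)),
    fun j => c (Sum.inr (Sum.inr (Sum.inl j))), fun j => c (Sum.inr (Sum.inr (Sum.inr (Sum.inl j)))),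
    fun j => c (Sum.inr (Sum.inr (Sum.inr (Sum.inr (Sum.inl j))))), ?_, ?_⟩,
    fun j => c (Sum.inr (Sum.inr (Sum.inr (Sum.inr (Sum.inr (Sum.inr j))))))⟩
  · have e1 := (q1.qs_mem_Id hr).mpr hg1
    have e2 := (q2.qs_mem_Id hr).mpr hg1
    have e3 : q1.qs g = q2.qs g :=
      c (Sum.inr (Sum.inr (Sum.inr (Sum.inr (Sum.inr (Sum.inl ()))))))
    have e4 := (QS.Id D r).sub_mem e2 e1
    simp only [map_sub] at e4
    rw [e3] at e4
    have e5 : q2.qs (w.p1.qs s.t) - q2.qs g - (q1.qs (w.p1.qs s.t) - q2.qs g) =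
        q2.qs (w.p1.qs s.t) - q1.qs (w.p1.qs s.t) := by ring
    rw [e5] at e4
    exact e4
  · rw [vd_sum, vd_sum, vd_sum, vd_sum, vd_sum, vd_sum, vd_unit, w.p1.qs_vd, w.p1.qs_vd,
      w.p1.qs_vd, w.p1.qs_vd, w.p2.qs_vd, hg2, w.p1.qs_dg] at i
    have h1 : w.p1.map (vd s.F 1) ≤ w.p1.map s.iL := w.p1.map_mono hs.hF
    obtain ⟨G, hG⟩ : ∃ G, G = vd f 1 := ⟨_, rfl⟩
    rw [← hG] at hf i
    have h2 : w.p1.map (vd s.a 1) ⊔ (w.p1.map (vd s.x 1) ⊔ (w.p1.map (vd s.b 1) ⊔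
        (w.p1.map (vd s.F 1) ⊔ (w.p2.map (vd s.x 1) ⊔ (w.p1.map (dg s.t r) ⊔ G))))) =
        w.p1.map (s.iL ⊔ s.iB) ⊔ w.p2.map s.iX ⊔ w.p1.map (dg s.t r) := by
      have h3 : w.p1.map s.iL = w.p1.map (vd s.a 1) ⊔ w.p1.map (vd s.x 1) := by
        unfold iL
        rw [w.p1.map_sup]
      have h4 : w.p1.map s.iB = w.p1.map (vd s.b 1) := rfl
      have h5 : w.p2.map s.iX = w.p2.map (vd s.x 1) := rfl
      rw [w.p1.map_sup, h4, h5] at hf ⊢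
      order
    rw [h2] at i
    exact i

theorem exists_zed {s : FV S d N} (hs : s.Hyp) (w : s.Star) {r : ℝ} (h0 : 0 ≤ r) (hr : r ≤ 1) :
    Nonempty (Zed w r) := by
  obtain ⟨v, -⟩ := exists_zed' hs w h0 hr (fun i : Empty => i.elim) (vd_empty _ _ _)
  exact ⟨v⟩

namespace Zed

variable {s : FV S d N} {w : s.Star} {r : ℝ} (v : Zed w r)

/-- informations of the Z-shape: first height, second height -/
def T0 : v.D.L := v.q1.map (w.p1.map s.iT)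
def T0' : v.D.L := v.q2.map (w.p1.map s.iT)
/-- the common digits of the heights -/
def Tr : v.D.L := v.q1.map (w.p1.map (dg s.t r))
/-- direction of the common line -/
def U : v.D.L := v.q1.map (w.p1.map s.iX)
/-- the common line -/
def R : v.D.L := v.q1.map (w.p1.map (s.iL ⊔ s.iB))
/-- the two parallel lines -/
def K : v.D.L := v.q1.map (w.p2.map (s.iL ⊔ s.iB))
def K' : v.D.L := v.q2.map (w.p2.map (s.iL ⊔ s.iB))
def X : v.D.L := v.q1.map (w.p2.map s.iX)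
/-- difference of the heights -/
def tau : QS v.D := v.q2.qs (w.p1.qs s.t) - v.q1.qs (w.p1.qs s.t)

theorem tau_mem : v.tau ∈ QS.Id v.D r := v.ct

theorem eU : v.q2.map (w.p1.map s.iX) = v.U := by
  unfold U iX
  rw [← w.p1.qs_vd, ← v.q1.qs_vd, ← v.q2.qs_vd]
  exact (vd_congr v.cu 1).symm

theorem eX : v.q2.map (w.p2.map s.iX) = v.X := by
  unfold X iX
  rw [← w.p2.qs_vd, ← v.q1.qs_vd, ← v.q2.qs_vd]
  exact (vd_congr v.cx 1).symm

theorem eR : v.q2.map (w.p1.map (s.iL ⊔ s.iB)) = v.R := by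
  have h1 : v.q2.map (w.p1.map (vd s.a 1)) = v.q1.map (w.p1.map (vd s.a 1)) := by
    rw [← w.p1.qs_vd, ← v.q1.qs_vd, ← v.q2.qs_vd]
    exact (vd_congr v.ca 1).symm
  have h2 : v.q2.map (w.p1.map (vd s.x 1)) = v.q1.map (w.p1.map (vd s.x 1)) := by
    rw [← w.p1.qs_vd, ← v.q1.qs_vd, ← v.q2.qs_vd]
    exact (vd_congr v.cu 1).symm
  have h3 : v.q2.map (w.p1.map (vd s.b 1)) = v.q1.map (w.p1.map (vd s.b 1)) := by
    rw [← w.p1.qs_vd, ← v.q1.qs_vd, ← v.q2.qs_vd]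
    exact (vd_congr v.cb 1).symm
  unfold R iL iB
  rw [w.p1.map_sup, w.p1.map_sup, v.q2.map_sup, v.q2.map_sup, h1, h2, h3, ← v.q1.map_sup,
    ← v.q1.map_sup]

theorem eTr (hr : r ≤ 1) : v.q2.map (w.p1.map (dg s.t r)) = v.Tr := by
  unfold Tr
  rw [← w.p1.qs_dg, ← v.q1.qs_dg, ← v.q2.qs_dg]
  exact dg_eq_of_sub_mem v.ct le_rfl hr

theorem Tr_le (hr : r ≤ 1) : v.Tr ≤ v.T0 := v.q1.map_mono (w.p1.map_mono (dg_mono s.t hr))

theorem Tr_le' (hr : r ≤ 1) : v.Tr ≤ v.T0' := by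
  rw [← v.eTr hr]
  exact v.q2.map_mono (w.p1.map_mono (dg_mono s.t hr))

theorem a1 (hs : s.Hyp) : I v.T0 (v.R ⊔ v.X) ⊥ = 0 := by
  have h1 := v.q1.I_map (w.p1.map s.iT) (w.p1.map (s.iL ⊔ s.iB) ⊔ w.p2.map s.iX) ⊥
  rw [w.d2 hs, v.q1.map_bot, v.q1.map_sup] at h1
  exact h1

theorem a1' (hs : s.Hyp) : I v.T0' (v.R ⊔ v.X) ⊥ = 0 := by
  have h1 := v.q2.I_map (w.p1.map s.iT) (w.p1.map (s.iL ⊔ s.iB) ⊔ w.p2.map s.iX) ⊥
  rw [w.d2 hs, v.q2.map_bot, v.q2.map_sup, v.eR, v.eX] at h1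
  exact h1

/-- the first height is independent of the second star over the common digits -/
theorem e1 (hs : s.Hyp) (hr : r ≤ 1) (y : w.D.L) : I v.T0 (v.R ⊔ v.X ⊔ v.q2.map y) v.Tr = 0 := by
  have h0 := v.a1 hs
  have h1 : I v.T0 (v.R ⊔ v.X) v.Tr = 0 := by
    apply le_antisymm _ (I_nonneg _ _ _)
    have h2 := I_cond_le (A := v.T0) (A' := v.Tr) (B := v.R ⊔ v.X) (C := ⊥) (v.Tr_le hr)
    rw [sup_bot_eq, h0] at h2
    exact h2
  have h2 := v.ci (w.p1.map s.iT) y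
  rw [v.q1.map_sup, v.q1.map_sup] at h2
  exact ind_add h1 h2 rfl

theorem e1' (hs : s.Hyp) (hr : r ≤ 1) (y : w.D.L) : I v.T0' (v.R ⊔ v.X ⊔ v.q1.map y) v.Tr = 0 := by
  have h0 := v.a1' hs
  have h1 : I v.T0' (v.R ⊔ v.X) v.Tr = 0 := by
    apply le_antisymm _ (I_nonneg _ _ _)
    have h2 := I_cond_le (A := v.T0') (A' := v.Tr) (B := v.R ⊔ v.X) (C := ⊥) (v.Tr_le' hr)
    rw [sup_bot_eq, h0] at h2
    exact h2
  have h2 := ind_symm (v.ci y (w.p1.map s.iT))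
  rw [v.q1.map_sup, v.q1.map_sup] at h2
  exact ind_add h1 h2 rfl

/-- heights are independent of the second line and the direction of the first one -/
theorem e3 (hs : s.Hyp) : I v.T0' (v.K' ⊔ v.U) ⊥ = 0 := by
  have h1 := v.q2.I_map (w.p1.map s.iT) (w.p2.map (s.iL ⊔ s.iB) ⊔ w.p1.map s.iX) ⊥
  rw [w.d2' hs, v.q2.map_bot, v.q2.map_sup, v.eU] at h1
  exact h1

theorem e3' (hs : s.Hyp) : I v.T0 (v.K ⊔ v.U) ⊥ = 0 := by
  have h1 := v.q1.I_map (w.p1.map s.iT) (w.p2.map (s.iL ⊔ s.iB) ⊔ w.p1.map s.iX) ⊥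
  rw [w.d2' hs, v.q1.map_bot, v.q1.map_sup] at h1
  exact h1

theorem T0_eq : v.T0 = dg (v.q1.qs (w.p1.qs s.t)) 1 := by
  unfold T0 iT
  rw [← w.p1.qs_dg, ← v.q1.qs_dg]

theorem T0'_eq : v.T0' = dg (v.q2.qs (w.p1.qs s.t)) 1 := by
  unfold T0' iT
  rw [← w.p1.qs_dg, ← v.q2.qs_dg]

theorem Tr_eq : v.Tr = dg (v.q1.qs (w.p1.qs s.t)) r := by
  unfold Tr
  rw [← w.p1.qs_dg, ← v.q1.qs_dg]

theorem Tr_eq' (hr : r ≤ 1) : v.Tr = dg (v.q2.qs (w.p1.qs s.t)) r := by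
  rw [← v.eTr hr, ← w.p1.qs_dg, ← v.q2.qs_dg]

theorem HT0 (hs : s.Hyp) : H v.T0 = 1 := by
  unfold T0
  rw [v.q1.H_map, w.p1.H_map, HT hs]

theorem HT0' (hs : s.Hyp) : H v.T0' = 1 := by
  unfold T0'
  rw [v.q2.H_map, w.p1.H_map, HT hs]

theorem hT0r (hs : s.Hyp) (h0 : 0 ≤ r) (hr : r ≤ 1) : h v.T0 v.Tr = 1 - r := by
  have h1 : h (dg (v.q1.qs (w.p1.qs s.t)) 1) ⊥ = 1 := by
    rw [h_bot, ← v.T0_eq]
    exact v.HT0 hs
  have h2 := (h_dg_of_full h1 h0 hr).2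
  rw [sup_bot_eq] at h2
  rw [v.T0_eq, v.Tr_eq]
  exact h2

theorem hT0r' (hs : s.Hyp) (h0 : 0 ≤ r) (hr : r ≤ 1) : h v.T0' v.Tr = 1 - r := by
  have h1 : h (dg (v.q2.qs (w.p1.qs s.t)) 1) ⊥ = 1 := by
    rw [h_bot, ← v.T0'_eq]
    exact v.HT0' hs
  have h2 := (h_dg_of_full h1 h0 hr).2
  rw [sup_bot_eq] at h2
  rw [v.T0'_eq, v.Tr_eq' hr]
  exact h2

theorem tau_le : dg v.tau 1 ≤ v.T0 ⊔ v.T0' := by
  rw [v.T0_eq, v.T0'_eq]
  unfold tau
  refine (dg_sub_le _ _ le_rfl).trans ?_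
  order

theorem T0'_le : v.T0' ≤ v.T0 ⊔ dg v.tau 1 := by
  rw [v.T0_eq, v.T0'_eq]
  have h1 : v.q2.qs (w.p1.qs s.t) = v.q1.qs (w.p1.qs s.t) + v.tau := by
    unfold tau
    ring
  conv_lhs => rw [h1]
  exact dg_add_le _ _ le_rfl

theorem T0_le : v.T0 ≤ v.T0' ⊔ dg v.tau 1 := by
  rw [v.T0_eq, v.T0'_eq]
  have h1 : v.q1.qs (w.p1.qs s.t) = v.q2.qs (w.p1.qs s.t) - v.tau := by
    unfold tau
    ring
  conv_lhs => rw [h1]
  exact dg_sub_le _ _ le_rfl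

theorem h_tau_le (hr : r ≤ 1) (A : v.D.L) : h (dg v.tau 1) A ≤ 1 - r := h_dg_of_mem hr v.tau_mem A

/-- the first height is independent of the second line, the direction `u` and `tau` -/
theorem e4 (hs : s.Hyp) (h0 : 0 ≤ r) (hr : r ≤ 1) : I v.T0 (v.K' ⊔ v.U ⊔ dg v.tau 1) ⊥ = 0 := by
  have h1 := v.e3 hs
  have h2 := v.e1 hs hr (w.p2.map (s.iL ⊔ s.iB) ⊔ w.p1.map s.iX ⊔ w.p1.map s.iT)
  rw [v.q2.map_sup, v.q2.map_sup, v.eU] at h2
  have t1 := v.Tr_le' hr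
  have h3 : h v.T0 (v.T0' ⊔ (v.K' ⊔ v.U)) = 1 - r := by
    rw [← v.hT0r hs h0 hr]
    exact h_of_ind' h2 (by order) (by unfold K' T0'; order)
  have h5 := I_zero_iff_h.mp h1
  rw [sup_bot_eq, h_bot, v.HT0' hs] at h5
  have a1 := v.tau_le
  have a2 := v.T0'_le
  have h6 : v.T0' ⊔ v.T0 ⊔ (v.K' ⊔ v.U) = dg v.tau 1 ⊔ v.T0 ⊔ (v.K' ⊔ v.U) := by order
  have h7 : h (v.T0' ⊔ v.T0) (v.K' ⊔ v.U) = h (dg v.tau 1 ⊔ v.T0) (v.K' ⊔ v.U) := by
    unfold h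
    rw [h6]
  rw [h_chain, h_chain, h5, h3] at h7
  have h9 := v.h_tau_le hr (v.K' ⊔ v.U)
  refine ind_of_h ?_
  rw [h_bot, sup_bot_eq, v.HT0 hs]
  have h10 : dg v.tau 1 ⊔ (v.K' ⊔ v.U) = v.K' ⊔ v.U ⊔ dg v.tau 1 := sup_comm _ _
  rw [h10] at h7
  linarith

theorem h5r (hs : s.Hyp) (h0 : 0 ≤ r) (hr : r ≤ 1) : h (dg v.tau 1) (v.K ⊔ v.U ⊔ v.T0) = 1 - r := by
  have h2 := v.e1' hs hr (w.p2.map (s.iL ⊔ s.iB) ⊔ w.p1.map s.iX ⊔ w.p1.map s.iT)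
  rw [v.q1.map_sup, v.q1.map_sup] at h2
  have t1 := v.Tr_le hr
  have h4 : h v.T0' (v.K ⊔ v.U ⊔ v.T0) = 1 - r := by
    rw [← v.hT0r' hs h0 hr]
    exact h_of_ind' h2 (by order) (by unfold K U T0; order)
  apply le_antisymm (v.h_tau_le hr _)
  have a1 := v.T0'_le
  have h6 := h_mono (B := v.K ⊔ v.U ⊔ v.T0) a1
  have h7 := h_sup_le v.T0 (dg v.tau 1) (v.K ⊔ v.U ⊔ v.T0)
  have h8 : h v.T0 (v.K ⊔ v.U ⊔ v.T0) = 0 := h_zero (by order)
  linarith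

theorem H_tau (hs : s.Hyp) (h0 : 0 ≤ r) (hr : r ≤ 1) : H (dg v.tau 1) = 1 - r := by
  apply le_antisymm
  · have h1 := v.h_tau_le hr ⊥
    rw [h_bot] at h1
    exact h1
  · have h1 := h_le_H (dg v.tau 1) (v.K ⊔ v.U ⊔ v.T0)
    rw [v.h5r hs h0 hr] at h1
    exact h1

/-- `tau` is independent of the first star -/
theorem e5 (hs : s.Hyp) (h0 : 0 ≤ r) (hr : r ≤ 1) : I (dg v.tau 1) (v.K ⊔ v.U ⊔ v.T0) ⊥ = 0 := by
  refine ind_of_h ?_
  rw [h_bot, sup_bot_eq, v.H_tau hs h0 hr, v.h5r hs h0 hr]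

/-- coordinates of the second line -/
theorem za (i : Fin d) : v.q1.qs (w.p2.qs (s.a i)) = v.q2.qs (w.p2.qs (s.a i)) -
    v.tau * (v.q1.qs (w.p1.qs (s.x i)) - v.q2.qs (w.p2.qs (s.x i))) := by
  have h1 := congrArg v.q1.qs (w.cy i)
  have h2 := congrArg v.q2.qs (w.cy i)
  unfold y at h1 h2
  simp only [map_add, map_mul] at h1 h2
  have h3 := congrArg v.q1.qs w.ct
  have h4 := congrArg v.q2.qs w.ct
  have c1 := v.ca i
  have c2 := v.cu i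
  have c3 := v.cx i
  rw [← h3] at h1
  rw [← h4, ← c1, ← c2] at h2
  rw [c3] at h1
  unfold tau
  linear_combination h2 - h1

/-- the top coordinates of the first line -/
theorem zb (i : Fin N) : v.q1.qs (w.p2.qs (s.b i)) = v.q2.qs (w.p2.qs (s.b i)) +
    (v.q1.qs (w.p1.qs s.t) + v.tau) * v.q2.qs (w.p2.qs (s.F i)) -
    v.tau * v.q1.qs (w.p1.qs (s.F i)) -
    v.q1.qs (w.p1.qs s.t) * v.q1.qs (w.p2.qs (s.F i)) := by
  have h1 := congrArg v.q1.qs (w.cz i)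
  have h2 := congrArg v.q2.qs (w.cz i)
  unfold z at h1 h2
  simp only [map_add, map_mul] at h1 h2
  have h3 := congrArg v.q1.qs w.ct
  have h4 := congrArg v.q2.qs w.ct
  rw [← h3] at h1
  rw [← h4, ← v.cb i, ← v.cF i] at h2
  unfold tau
  linear_combination h2 - h1

/-- each of the two parallel base lines from the other one -/
theorem lK : v.q1.map (w.p2.map s.iL) ≤ v.q2.map (w.p2.map s.iL) ⊔ v.U ⊔ dg v.tau 1 := by
  have e0 : v.q1.map (w.p2.map (vd s.x 1)) = v.q2.map (w.p2.map (vd s.x 1)) := v.eX.symm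
  have e1 : v.q2.map (w.p2.map (vd s.x 1)) ≤ v.q2.map (w.p2.map s.iL) :=
    v.q2.map_mono (w.p2.map_mono le_sup_right)
  have e3 : v.q1.map (w.p2.map (vd s.a 1)) ≤ v.q2.map (w.p2.map s.iL) ⊔ v.U ⊔ dg v.tau 1 := by
    rw [← w.p2.qs_vd, ← v.q1.qs_vd, vd_le]
    intro i
    rw [v.za i]
    have b1 := dg_sub_le (v.q2.qs (w.p2.qs (s.a i))) (v.tau *
      (v.q1.qs (w.p1.qs (s.x i)) - v.q2.qs (w.p2.qs (s.x i)))) (r := 1) le_rfl
    have b2 := dg_mul_le v.tau (v.q1.qs (w.p1.qs (s.x i)) - v.q2.qs (w.p2.qs (s.x i)))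
      (r := 1) le_rfl
    have b3 := dg_sub_le (v.q1.qs (w.p1.qs (s.x i))) (v.q2.qs (w.p2.qs (s.x i))) (r := 1) le_rfl
    have b4 : dg (v.q2.qs (w.p2.qs (s.x i))) 1 ≤ v.q2.map (w.p2.map (vd s.x 1)) := by
      rw [← w.p2.qs_vd, ← v.q2.qs_vd]
      exact dg_le_vd (fun i => v.q2.qs (w.p2.qs (s.x i))) 1 i
    have b5 : dg (v.q1.qs (w.p1.qs (s.x i))) 1 ≤ v.U := by
      unfold U iX
      rw [← w.p1.qs_vd, ← v.q1.qs_vd]
      exact dg_le_vd (fun i => v.q1.qs (w.p1.qs (s.x i))) 1 i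
    have b6 : dg (v.q2.qs (w.p2.qs (s.a i))) 1 ≤ v.q2.map (w.p2.map s.iL) := by
      unfold iL
      refine le_trans ?_ (v.q2.map_mono (w.p2.map_mono le_sup_left))
      rw [← w.p2.qs_vd, ← v.q2.qs_vd]
      exact dg_le_vd (fun i => v.q2.qs (w.p2.qs (s.a i))) 1 i
    order
  have e4 : v.q1.map (w.p2.map s.iL) = v.q1.map (w.p2.map (vd s.a 1)) ⊔
      v.q1.map (w.p2.map (vd s.x 1)) := by
    unfold iL
    rw [w.p2.map_sup, v.q1.map_sup]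
  rw [e4, e0]
  order

theorem lK' : v.q2.map (w.p2.map s.iL) ≤ v.q1.map (w.p2.map s.iL) ⊔ v.U ⊔ dg v.tau 1 := by
  have e0 : v.q2.map (w.p2.map (vd s.x 1)) = v.q1.map (w.p2.map (vd s.x 1)) := v.eX
  have e1 : v.q1.map (w.p2.map (vd s.x 1)) ≤ v.q1.map (w.p2.map s.iL) :=
    v.q1.map_mono (w.p2.map_mono le_sup_right)
  have e3 : v.q2.map (w.p2.map (vd s.a 1)) ≤ v.q1.map (w.p2.map s.iL) ⊔ v.U ⊔ dg v.tau 1 := by
    rw [← w.p2.qs_vd, ← v.q2.qs_vd, vd_le]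
    intro i
    have a1 : v.q2.qs (w.p2.qs (s.a i)) = v.q1.qs (w.p2.qs (s.a i)) +
        v.tau * (v.q1.qs (w.p1.qs (s.x i)) - v.q1.qs (w.p2.qs (s.x i))) := by
      rw [v.cx i, v.za i]
      ring
    rw [a1]
    have b1 := dg_add_le (v.q1.qs (w.p2.qs (s.a i))) (v.tau *
      (v.q1.qs (w.p1.qs (s.x i)) - v.q1.qs (w.p2.qs (s.x i)))) (r := 1) le_rfl
    have b2 := dg_mul_le v.tau (v.q1.qs (w.p1.qs (s.x i)) - v.q1.qs (w.p2.qs (s.x i)))
      (r := 1) le_rfl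
    have b3 := dg_sub_le (v.q1.qs (w.p1.qs (s.x i))) (v.q1.qs (w.p2.qs (s.x i))) (r := 1) le_rfl
    have b4 : dg (v.q1.qs (w.p2.qs (s.x i))) 1 ≤ v.q1.map (w.p2.map (vd s.x 1)) := by
      rw [← w.p2.qs_vd, ← v.q1.qs_vd]
      exact dg_le_vd (fun i => v.q1.qs (w.p2.qs (s.x i))) 1 i
    have b5 : dg (v.q1.qs (w.p1.qs (s.x i))) 1 ≤ v.U := by
      unfold U iX
      rw [← w.p1.qs_vd, ← v.q1.qs_vd]
      exact dg_le_vd (fun i => v.q1.qs (w.p1.qs (s.x i))) 1 i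
    have b6 : dg (v.q1.qs (w.p2.qs (s.a i))) 1 ≤ v.q1.map (w.p2.map s.iL) := by
      unfold iL
      refine le_trans ?_ (v.q1.map_mono (w.p2.map_mono le_sup_left))
      rw [← w.p2.qs_vd, ← v.q1.qs_vd]
      exact dg_le_vd (fun i => v.q1.qs (w.p2.qs (s.a i))) 1 i
    order
  have e4 : v.q2.map (w.p2.map s.iL) = v.q2.map (w.p2.map (vd s.a 1)) ⊔
      v.q2.map (w.p2.map (vd s.x 1)) := by
    unfold iL
    rw [w.p2.map_sup, v.q2.map_sup]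
  rw [e4, e0]
  order

/-- slope of the first parallel line -/
theorem lFK (hs : s.Hyp) (i : Fin N) : dg (v.q1.qs (w.p2.qs (s.F i))) 1 ≤ v.K' ⊔ v.U ⊔ dg v.tau 1 := by
  have h1 := v.q1.map_mono (w.lF2 hs i)
  rw [v.q1.qs_dg]
  have h2 : v.q2.map (w.p2.map s.iL) ≤ v.K' := v.q2.map_mono (w.p2.map_mono le_sup_left)
  have h3 := v.lK
  order

/-- slope difference of the two parallel lines -/
def Cd (i : Fin N) : QS v.D := v.q2.qs (w.p2.qs (s.F i)) - v.q1.qs (w.p2.qs (s.F i))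

end Zed

end FV

end

end Pool.Agent.Helper96.FLT
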